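import Pool.Agent.H21.L.R_seed8.W263.BSD.Order
import Mathlib.NumberTheory.Harmonic.GammaDeriv

/-! The constant in the Laplace transform of `log`. -/

set_option autoImplicit false

namespace Pool.Agent.W263.BSD

open MeasureTheory Filter Topology Set

theorem integral_log_exp : ∫ t in Ioi (0 : ℝ), Real.log t * Real.exp (-t) =
    -Real.eulerMascheroniConstant := by
  have h1 := Complex.hasDerivAt_GammaIntegral (s := 1) (by simp)
  have h2 : HasDerivAt Complex.Gamma
      (∫ t : ℝ in Ioi 0, (t : ℂ) ^ ((1 : ℂ) - 1) * (Real.log t * Real.exp (-t))) 1 := by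
    refine h1.congr_of_eventuallyEq ?_
    filter_upwards [(isOpen_half 0).mem_nhds (show (0 : ℝ) < (1 : ℂ).re by simp)] with z hz
    exact Complex.Gamma_eq_integral hz
  have h3 := h2.unique Complex.hasDerivAt_Gamma_one
  simp only [sub_self, Complex.cpow_zero, one_mul] at h3
  have h4 : (∫ t : ℝ in Ioi 0, ((Real.log t : ℂ) * (Real.exp (-t) : ℂ))) =
      ((∫ t in Ioi (0 : ℝ), Real.log t * Real.exp (-t) : ℝ) : ℂ) := by
    rw [← integral_complex_ofReal]
    refine setIntegral_congr_fun measurableSet_Ioi fun t _ => ?_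
    push_cast
    rfl
  rw [h4] at h3
  exact_mod_cast h3

theorem integrable_log_exp : IntegrableOn (fun t : ℝ => Real.log t * Real.exp (-t)) (Ioi 0) := by
  by_contra h
  have h1 := integral_undef h
  rw [integral_log_exp] at h1
  have := Real.one_half_lt_eulerMascheroniConstant
  linarith

theorem ell_lap_limit : Tendsto (fun w : ℝ => w * lap ell w + Real.log w) (𝓝[>] 0)
    (𝓝 (-Real.eulerMascheroniConstant)) := by
  have hE := Real.exp_pos 1
  have hexp : IntegrableOn (fun t : ℝ => Real.exp (-t)) (Ioi 0) := by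
    have := ex_LInt (c := 0) (w := 1) one_pos
    unfold LInt at this
    refine this.congr_fun (fun t _ => ?_) measurableSet_Ioi
    simp [ex]
  have hexp1 : ∫ t in Ioi (0 : ℝ), Real.exp (-t) = 1 := integral_exp_neg_Ioi_zero
  have hell : IntegrableOn (fun t : ℝ => ell t * Real.exp (-t)) (Ioi 0) := by
    have := ell_LInt (w := 1) one_pos
    unfold LInt at this
    refine this.congr_fun (fun t _ => ?_) measurableSet_Ioi
    simp
  -- bound
  have hbd : ∀ w : ℝ, 0 < w → w ≤ 1 → ∀ t : ℝ, 0 < t →
      |Real.log (t + w * Real.exp 1)| ≤ |Real.log t| + ell t := by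
    intro w hw hw1 t ht
    have h1 : Real.log t ≤ Real.log (t + w * Real.exp 1) :=
      Real.log_le_log ht (by nlinarith)
    have h2 : Real.log (t + w * Real.exp 1) ≤ ell t := by
      unfold ell
      exact Real.log_le_log (by positivity) (by nlinarith)
    have h3 := ell_nonneg ht.le
    rw [abs_le]
    have h4 := neg_abs_le (Real.log t)
    have h5 := abs_nonneg (Real.log t)
    constructor <;> linarith
  have hdom : IntegrableOn (fun t : ℝ => (|Real.log t| + ell t) * Real.exp (-t)) (Ioi 0) := by
    have : IntegrableOn (fun t : ℝ => |Real.log t * Real.exp (-t)| + ell t * Real.exp (-t))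
      (Ioi 0) := integrable_log_exp.abs.add hell
    refine this.congr_fun (fun t _ => ?_) measurableSet_Ioi
    simp only [abs_mul, abs_of_pos (Real.exp_pos _)]
    ring
  have hlim : Tendsto (fun w : ℝ => ∫ t in Ioi (0 : ℝ), Real.log (t + w * Real.exp 1) *
      Real.exp (-t)) (𝓝[>] 0) (𝓝 (∫ t in Ioi (0 : ℝ), Real.log t * Real.exp (-t))) := by
    refine tendsto_integral_filter_of_dominated_convergence
      (fun t : ℝ => (|Real.log t| + ell t) * Real.exp (-t)) ?_ ?_ hdom ?_
    · refine Eventually.of_forall fun w => ?_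
      exact Measurable.aestronglyMeasurable (by fun_prop)
    · filter_upwards [Ioc_mem_nhdsGT (show (0 : ℝ) < 1 by norm_num)] with w hw
      refine (ae_restrict_iff' measurableSet_Ioi).mpr (Eventually.of_forall fun t ht => ?_)
      rw [norm_mul, Real.norm_eq_abs, Real.norm_of_nonneg (Real.exp_pos _).le]
      exact mul_le_mul_of_nonneg_right (hbd w hw.1 hw.2 t ht) (Real.exp_pos _).le
    · refine (ae_restrict_iff' measurableSet_Ioi).mpr (Eventually.of_forall fun t ht => ?_)
      have ht' : (0 : ℝ) < t := ht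
      refine Tendsto.mul_const _ ?_
      have h1 : Tendsto (fun w : ℝ => t + w * Real.exp 1) (𝓝[>] 0) (𝓝 t) := by
        have h2 : Continuous fun w : ℝ => t + w * Real.exp 1 := by fun_prop
        have := h2.tendsto 0
        rw [zero_mul, add_zero] at this
        exact tendsto_nhdsWithin_of_tendsto_nhds this
      exact h1.log ht'.ne'
  rw [integral_log_exp] at hlim
  refine hlim.congr' ?_
  filter_upwards [Ioc_mem_nhdsGT (show (0 : ℝ) < 1 by norm_num)] with w hw
  have hw0 : 0 < w := hw.1
  have hi1 : IntegrableOn (fun t : ℝ => Real.log (t + w * Real.exp 1) * Real.exp (-t)) (Ioi 0) := by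
    refine Integrable.mono hdom (Measurable.aestronglyMeasurable (by fun_prop)) ?_
    refine (ae_restrict_iff' measurableSet_Ioi).mpr (Eventually.of_forall fun t ht => ?_)
    rw [norm_mul, norm_mul, Real.norm_eq_abs]
    refine mul_le_mul_of_nonneg_right ?_ (norm_nonneg _)
    exact (hbd w hw.1 hw.2 t ht).trans (le_abs_self _)
  have h1 := integral_comp_mul_left_Ioi (fun t : ℝ => ell (t / w) * Real.exp (-t)) 0 hw0
  rw [mul_zero] at h1
  have h2 : lap ell w = ∫ x in Ioi (0 : ℝ), ell (w * x / w) * Real.exp (-(w * x)) := by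
    unfold lap
    refine setIntegral_congr_fun measurableSet_Ioi fun t _ => ?_
    rw [mul_div_cancel_left₀ _ hw0.ne']
  rw [h2, h1, smul_eq_mul, mul_inv_cancel_left₀ hw0.ne']
  have h3 : ∫ t in Ioi (0 : ℝ), ell (t / w) * Real.exp (-t) =
      ∫ t in Ioi (0 : ℝ), (Real.log (t + w * Real.exp 1) * Real.exp (-t) -
        Real.log w * Real.exp (-t)) := by
    refine setIntegral_congr_fun measurableSet_Ioi fun t ht => ?_
    have ht' : (0 : ℝ) < t := ht
    unfold ell
    have h4 : t / w + Real.exp 1 = (t + w * Real.exp 1) / w := by field_simp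
    rw [h4, Real.log_div (by positivity) hw0.ne']
    ring
  rw [h3, integral_sub hi1 (hexp.const_mul _), integral_const_mul, hexp1]
  ring

end Pool.Agent.W263.BSD
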