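import Pool.Agent.H21.L.R_seed8.W263.BSD.Core
import Pool.Agent.H21.L.R_seed8.W263.BSD.Log
import Pool.Agent.H21.L.R_seed8.H341R2.PrimeSums

/-! The data attached to an Euler product `∏ (1 - A_p p^{-s} + p^{1-2s})⁻¹` over a set of primes. -/

set_option autoImplicit false

namespace Pool.Agent.W263.BSD

open MeasureTheory Filter Topology Set Classical

/-- hypotheses on the Euler data -/
structure EData (S : Set ℕ) (A : ℕ → ℝ) : Prop where
  prime : ∀ p ∈ S, p.Prime
  big : ∀ p ∈ S, 25 ≤ p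
  hasse : ∀ p ∈ S, |A p| ≤ 2 * √p

/-- `A_p / p` -/
noncomputable def tt (A : ℕ → ℝ) (p : ℕ) : ℝ := A p / p
/-- `1 / √p` -/
noncomputable def dl (p : ℕ) : ℝ := 1 / √p
/-- the local factor as a polynomial in `X = p^{-w}`, `s = 1 + w` -/
noncomputable def fac (A : ℕ → ℝ) (p : ℕ) (X : ℂ) : ℂ := 1 - (tt A p) * X + (dl p) ^ 2 * X ^ 2
/-- `log ((N_p + 1)/p)` -/
noncomputable def cc (A : ℕ → ℝ) (p : ℕ) : ℝ := Real.log (1 - tt A p + dl p ^ 2)
/-- `log P(e^u)` -/
noncomputable def aa (S : Set ℕ) (A : ℕ → ℝ) (u : ℝ) : ℝ :=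
  ∑ p ∈ Finset.range (⌊Real.exp u⌋₊ + 1), if p ∈ S then cc A p else 0
/-- `p^{-w}` -/
noncomputable def xp (p : ℕ) (w : ℂ) : ℂ := (p : ℂ) ^ (-w)
/-- the terms of `G` -/
noncomputable def gterm (S : Set ℕ) (A : ℕ → ℝ) (p : ℕ) (w : ℂ) : ℂ :=
  if p ∈ S then cc A p * xp p w - Complex.log (fac A p (xp p w)) else 0
/-- the function `G` -/
noncomputable def GG (S : Set ℕ) (A : ℕ → ℝ) (w : ℂ) : ℂ := ∑' p, gterm S A p w

variable {S : Set ℕ} {A : ℕ → ℝ}

theorem dl_nonneg (p : ℕ) : 0 ≤ dl p := by unfold dl; positivity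

theorem dl_sq {p : ℕ} (hp : 1 ≤ p) : dl p ^ 2 = 1 / p := by
  unfold dl
  rw [div_pow, Real.sq_sqrt (by positivity)]
  norm_num

theorem dl_le {p : ℕ} (hp : 25 ≤ p) : dl p ≤ 1 / 5 := by
  unfold dl
  apply one_div_le_one_div_of_le (by norm_num)
  apply Real.le_sqrt_of_sq_le
  have : (25 : ℝ) ≤ p := by exact_mod_cast hp
  linarith

theorem dl_cube {p : ℕ} (hp : 1 ≤ p) : dl p ^ 3 = (p : ℝ) ^ (-(3 / 2) : ℝ) := by
  unfold dl
  have hp' : (0 : ℝ) < p := by exact_mod_cast hp
  rw [Real.sqrt_eq_rpow, one_div, ← Real.rpow_neg hp'.le, ← Real.rpow_natCast, ← Real.rpow_mul hp'.le]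
  norm_num

theorem EData.tt_le (E : EData S A) {p : ℕ} (hp : p ∈ S) : |tt A p| ≤ 2 * dl p := by
  have h25 := E.big p hp
  have hp' : (0 : ℝ) < p := by
    have : 0 < p := by omega
    exact_mod_cast this
  unfold tt dl
  rw [abs_div, abs_of_pos hp', div_le_iff₀ hp']
  refine (E.hasse p hp).trans (le_of_eq ?_)
  have h1 : √(p : ℝ) * √p = p := Real.mul_self_sqrt hp'.le
  have h2 : 0 < √(p : ℝ) := Real.sqrt_pos.mpr hp'
  field_simp
  nlinarith

theorem norm_xp {p : ℕ} (hp : 1 ≤ p) (w : ℂ) : ‖xp p w‖ = (p : ℝ) ^ (-w.re) := by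
  unfold xp
  rw [Complex.norm_natCast_cpow_of_pos (by omega), Complex.neg_re]

theorem norm_xp_le {p : ℕ} (hp : 1 ≤ p) {w : ℂ} (hw : 0 ≤ w.re) : ‖xp p w‖ ≤ 1 := by
  rw [norm_xp hp]
  exact Real.rpow_le_one_of_one_le_of_nonpos (by exact_mod_cast hp) (by linarith)

theorem xp_zero {p : ℕ} : xp p 0 = 1 := by
  unfold xp
  rw [neg_zero, Complex.cpow_zero]

theorem xp_real {p : ℕ} (w : ℝ) : xp p w = (((p : ℝ) ^ (-w) : ℝ) : ℂ) := by
  unfold xp
  rw [Complex.ofReal_cpow (by positivity)]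
  push_cast
  rfl

theorem fac_real_pos {t δ x : ℝ} (hδ0 : 0 ≤ δ) (hδ : δ ≤ 1 / 5) (ht : |t| ≤ 2 * δ) (hx0 : 0 ≤ x)
    (hx : x ≤ 1) : 0 < 1 - t * x + δ ^ 2 * x ^ 2 := by
  have h1 := (abs_le.mp ht).2
  have : t * x ≤ 2 * δ * x := mul_le_mul_of_nonneg_right h1 hx0
  have h2 : 0 < 1 - δ * x := by nlinarith
  nlinarith [sq_nonneg (1 - δ * x)]

theorem EData.cc_eq (E : EData S A) {p : ℕ} (hp : p ∈ S) :
    (cc A p : ℂ) = Complex.log (fac A p 1) := by
  have h25 := E.big p hp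
  unfold cc fac
  rw [Complex.ofReal_log]
  · push_cast; ring_nf
  · have := fac_real_pos (dl_nonneg p) (dl_le h25) (E.tt_le hp) zero_le_one le_rfl
    linarith

/-- real logarithm of the local factor at real points -/
theorem EData.log_fac_real (E : EData S A) {p : ℕ} (hp : p ∈ S) {x : ℝ} (hx0 : 0 ≤ x) (hx : x ≤ 1) :
    Complex.log (fac A p x) = ((Real.log (1 - tt A p * x + dl p ^ 2 * x ^ 2) : ℝ) : ℂ) := by
  have h25 := E.big p hp
  have := fac_real_pos (dl_nonneg p) (dl_le h25) (E.tt_le hp) hx0 hx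
  rw [Complex.ofReal_log this.le]
  unfold fac
  push_cast
  rfl

/-- coefficient of the second order term -/
noncomputable def mm (A : ℕ → ℝ) (p : ℕ) : ℝ := dl p ^ 2 - tt A p ^ 2 / 2

theorem EData.mm_le (E : EData S A) {p : ℕ} (hp : p ∈ S) : |mm A p| ≤ 1 / p := by
  have h25 := E.big p hp
  rw [← dl_sq (by omega)]
  unfold mm
  have h := E.tt_le hp
  have h1 : tt A p ^ 2 ≤ (2 * dl p) ^ 2 := by
    rw [← sq_abs]
    exact pow_le_pow_left₀ (abs_nonneg _) h 2
  rw [abs_le]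
  constructor <;> nlinarith [sq_nonneg (tt A p), sq_nonneg (dl p)]

theorem EData.log_fac (E : EData S A) {p : ℕ} (hp : p ∈ S) {X : ℂ} (hX : ‖X‖ ≤ 1) :
    ‖Complex.log (fac A p X) - (-(tt A p) * X + mm A p * X ^ 2)‖ ≤ 30 * dl p ^ 3 := by
  have h25 := E.big p hp
  have := log_expand (dl_nonneg p) (dl_le h25) (E.tt_le hp) hX
  unfold fac mm
  push_cast
  exact this

theorem EData.gterm_main (E : EData S A) {p : ℕ} (hp : p ∈ S) {w : ℂ} (hw : 0 ≤ w.re) :
    ‖gterm S A p w - mm A p * (xp p w - xp p w ^ 2)‖ ≤ 60 * dl p ^ 3 := by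
  have h25 := E.big p hp
  have hX := norm_xp_le (p := p) (by omega) hw
  set X := xp p w with hXdef
  have h1 := E.log_fac hp hX
  have h2 := E.log_fac hp (X := 1) (by simp)
  rw [← E.cc_eq hp] at h2
  unfold gterm
  rw [if_pos hp]
  have h3 : (cc A p * X - Complex.log (fac A p X) - mm A p * (X - X ^ 2) : ℂ) =
      ((cc A p : ℂ) - (-(tt A p) * 1 + mm A p * 1 ^ 2)) * X -
      (Complex.log (fac A p X) - (-(tt A p) * X + mm A p * X ^ 2)) := by ring
  rw [← hXdef, h3]
  refine (norm_sub_le _ _).trans ?_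
  rw [norm_mul]
  have h4 : ‖(cc A p : ℂ) - (-(tt A p) * 1 + mm A p * 1 ^ 2)‖ * ‖X‖ ≤ 30 * dl p ^ 3 * 1 := by
    have : 0 ≤ dl p := dl_nonneg p
    gcongr
  linarith

theorem EData.gterm_norm (E : EData S A) {δ : ℝ} (hδ : 0 < δ) (p : ℕ) {w : ℂ} (hw : δ < w.re) :
    ‖gterm S A p w‖ ≤ 2 * (p : ℝ) ^ (-1 - δ) + 60 * (p : ℝ) ^ (-(3 / 2) : ℝ) := by
  by_cases hp : p ∈ S
  · have h25 := E.big p hp
    have h1 := E.gterm_main hp (w := w) (by linarith)
    have hp1 : (1 : ℝ) ≤ p := by exact_mod_cast (show 1 ≤ p by omega)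
    have hX := norm_xp (p := p) (by omega) w
    have hX1 := norm_xp_le (p := p) (by omega) (w := w) (by linarith)
    rw [dl_cube (by omega)] at h1
    have h2 : ‖(mm A p * (xp p w - xp p w ^ 2) : ℂ)‖ ≤ 2 * (p : ℝ) ^ (-1 - δ) := by
      rw [norm_mul, Complex.norm_real, Real.norm_eq_abs]
      have e1 : ‖xp p w - xp p w ^ 2‖ ≤ 2 * (p : ℝ) ^ (-δ) := by
        have e2 : ‖xp p w‖ ≤ (p : ℝ) ^ (-δ) := by
          rw [hX]
          exact Real.rpow_le_rpow_of_exponent_le hp1 (by linarith)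
        refine (norm_sub_le _ _).trans ?_
        rw [norm_pow]
        nlinarith [norm_nonneg (xp p w)]
      have e3 : (p : ℝ) ^ (-1 - δ) = 1 / p * (p : ℝ) ^ (-δ) := by
        rw [show (-1 - δ : ℝ) = -1 + -δ by ring, Real.rpow_add (by linarith), Real.rpow_neg_one,
          one_div]
      rw [e3]
      calc |mm A p| * ‖xp p w - xp p w ^ 2‖ ≤ (1 / p) * (2 * (p : ℝ) ^ (-δ)) :=
            mul_le_mul (E.mm_le hp) e1 (norm_nonneg _) (by positivity)
        _ = _ := by ring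
    have h3 : ‖gterm S A p w‖ ≤ ‖gterm S A p w - mm A p * (xp p w - xp p w ^ 2)‖ +
        ‖(mm A p * (xp p w - xp p w ^ 2) : ℂ)‖ := by
      have := norm_add_le (gterm S A p w - mm A p * (xp p w - xp p w ^ 2))
        (mm A p * (xp p w - xp p w ^ 2))
      rwa [sub_add_cancel] at this
    linarith
  · unfold gterm
    rw [if_neg hp, norm_zero]
    positivity

theorem summable_bound {δ : ℝ} (hδ : 0 < δ) :
    Summable fun p : ℕ => 2 * (p : ℝ) ^ (-1 - δ) + 60 * (p : ℝ) ^ (-(3 / 2) : ℝ) := by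
  refine Summable.add (Summable.mul_left _ ?_) (Summable.mul_left _ ?_)
  · exact Real.summable_nat_rpow.mpr (by linarith)
  · exact Real.summable_nat_rpow.mpr (by norm_num)

theorem EData.gterm_summable (E : EData S A) {w : ℂ} (hw : 0 < w.re) :
    Summable fun p => gterm S A p w := by
  refine Summable.of_norm_bounded (summable_bound (half_pos hw)) fun p => ?_
  exact E.gterm_norm (half_pos hw) p (by linarith)

theorem EData.gterm_differentiable (E : EData S A) (p : ℕ) {w : ℂ} (hw : 0 < w.re) :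
    DifferentiableAt ℂ (gterm S A p) w := by
  by_cases hp : p ∈ S
  · have h25 := E.big p hp
    have hX : DifferentiableAt ℂ (xp p) w := by
      unfold xp
      refine DifferentiableAt.const_cpow differentiable_neg.differentiableAt (Or.inl ?_)
      exact_mod_cast (show p ≠ 0 by omega)
    have h1 : gterm S A p = fun w => cc A p * xp p w - Complex.log (fac A p (xp p w)) := by
      funext w; unfold gterm; rw [if_pos hp]
    rw [h1]
    refine (hX.const_mul _).sub (DifferentiableAt.clog ?_ ?_)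
    · unfold fac
      exact ((differentiableAt_const _).sub (hX.const_mul _)).add ((hX.pow 2).const_mul _)
    · exact factor_slit (dl_nonneg p) (dl_le h25) (E.tt_le hp)
        (norm_xp_le (by omega) hw.le)
  · have h1 : gterm S A p = fun _ => 0 := by
      funext w; unfold gterm; rw [if_neg hp]
    rw [h1]
    exact differentiableAt_const _

theorem EData.GG_differentiable (E : EData S A) {w : ℂ} (hw : 0 < w.re) :
    DifferentiableAt ℂ (GG S A) w := by
  have hd : DifferentiableOn ℂ (GG S A) {z : ℂ | w.re / 2 < z.re} := by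
    refine Complex.differentiableOn_tsum_of_summable_norm (summable_bound (half_pos hw)) ?_
      (isOpen_half _) ?_
    · intro p z hz
      have hz' : w.re / 2 < z.re := hz
      exact (E.gterm_differentiable p (by linarith)).differentiableWithinAt
    · intro p z hz
      exact E.gterm_norm (half_pos hw) p hz
  exact hd.differentiableAt ((isOpen_half _).mem_nhds (by show w.re / 2 < w.re; linarith))

theorem EData.gterm_real (E : EData S A) (p : ℕ) {w : ℝ} (hw : 0 < w) :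
    gterm S A p w = (((gterm S A p w).re : ℝ) : ℂ) := by
  apply Complex.ext
  · simp
  rw [Complex.ofReal_im]
  unfold gterm
  split_ifs with hp
  · have h25 := E.big p hp
    rw [xp_real, E.log_fac_real hp (by positivity)]
    · rw [← Complex.ofReal_mul, ← Complex.ofReal_sub, Complex.ofReal_im]
    · exact Real.rpow_le_one_of_one_le_of_nonpos (by exact_mod_cast (show 1 ≤ p by omega))
        (by linarith)
  · simp

theorem EData.GG_im (E : EData S A) {w : ℝ} (hw : 0 < w) : (GG S A w).im = 0 := by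
  unfold GG
  rw [Complex.im_tsum (E.gterm_summable (by simpa using hw))]
  rw [tsum_congr fun p => by rw [E.gterm_real p hw, Complex.ofReal_im], tsum_zero]

end Pool.Agent.W263.BSD
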