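import Pool.Agent.H21.L.R_seed8.W263.BSD.Euler

/-! Laplace transforms of the Riesz sums of `log P(e^u)`. -/

set_option autoImplicit false

namespace Pool.Agent.W263.BSD

open MeasureTheory Filter Topology Set Classical

variable {S : Set ℕ} {A : ℕ → ℝ}

theorem EData.cc_abs (E : EData S A) {p : ℕ} (hp : p ∈ S) : |cc A p| ≤ 1 := by
  have h25 := E.big p hp
  have h2 := E.log_fac hp (X := 1) (by simp)
  rw [← E.cc_eq hp] at h2
  have h3 : ((cc A p : ℂ) - (-(tt A p) * 1 + mm A p * 1 ^ 2)) =
      ((cc A p - (-(tt A p) + mm A p) : ℝ) : ℂ) := by push_cast; ring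
  rw [h3, Complex.norm_real, Real.norm_eq_abs] at h2
  have h4 := abs_le.mp h2
  have h5 := abs_le.mp (E.tt_le hp)
  have h6 := abs_le.mp (E.mm_le hp)
  have h7 := dl_nonneg p
  have h8 := dl_le h25
  have h9 : dl p ^ 3 ≤ (1 / 5) ^ 3 := pow_le_pow_left₀ h7 h8 3
  have h10 : (1 : ℝ) / p ≤ 1 / 25 := by
    apply one_div_le_one_div_of_le (by norm_num)
    exact_mod_cast h25
  rw [abs_le]
  constructor <;> nlinarith

/-- the terms of the Riesz sums -/
noncomputable def rt (S : Set ℕ) (A : ℕ → ℝ) (k : ℕ) (p : ℕ) (u : ℝ) : ℝ :=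
  if p ∈ S then cc A p * ((u - Real.log p) ^ k / k.factorial) else 0

/-- `∑_{p ≤ e^u} c_p (u - log p)^k / k!` -/
noncomputable def aak (S : Set ℕ) (A : ℕ → ℝ) (k : ℕ) (u : ℝ) : ℝ :=
  ∑ p ∈ Finset.range (⌊Real.exp u⌋₊ + 1), rt S A k p u

theorem mem_iff (E : EData S A) {p : ℕ} (hp : p ∈ S) (u : ℝ) :
    p ∈ Finset.range (⌊Real.exp u⌋₊ + 1) ↔ Real.log p ≤ u := by
  have h25 := E.big p hp
  have hp' : (0 : ℝ) < p := by
    have : 0 < p := by omega
    exact_mod_cast this
  rw [Finset.mem_range, Nat.lt_succ_iff, Nat.le_floor_iff (Real.exp_pos u).le,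
    Real.log_le_iff_le_exp hp']

theorem log_prime_pos (E : EData S A) {p : ℕ} (h : p ∈ S) : 0 < Real.log p := by
  have h25 := E.big p h
  exact Real.log_pos (by exact_mod_cast (show 1 < p by omega))

theorem EData.rt_abs (E : EData S A) (k : ℕ) {p : ℕ} {u : ℝ}
    (hp : p ∈ Finset.range (⌊Real.exp u⌋₊ + 1)) : |rt S A k p u| ≤ Real.exp u := by
  unfold rt
  split_ifs with h
  · have h1 := (mem_iff E h u).mp hp
    have h2 := log_prime_pos E h
    rw [abs_mul]
    have h3 : |(u - Real.log p) ^ k / (k.factorial : ℝ)| ≤ Real.exp u := by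
      rw [abs_of_nonneg (div_nonneg (pow_nonneg (by linarith) k) (by positivity))]
      refine (Real.pow_div_factorial_le_exp _ (by linarith) k).trans ?_
      exact Real.exp_le_exp.mpr (by linarith)
    calc |cc A p| * |(u - Real.log p) ^ k / (k.factorial : ℝ)| ≤ 1 * Real.exp u :=
          mul_le_mul (E.cc_abs h) h3 (abs_nonneg _) zero_le_one
      _ = Real.exp u := one_mul _
  · rw [abs_zero]; exact (Real.exp_pos u).le

theorem EData.aak_abs (E : EData S A) (k : ℕ) (u : ℝ) :
    |aak S A k u| ≤ Real.exp (2 * u) + Real.exp u := by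
  unfold aak
  calc |∑ p ∈ Finset.range (⌊Real.exp u⌋₊ + 1), rt S A k p u|
      ≤ ∑ p ∈ Finset.range (⌊Real.exp u⌋₊ + 1), |rt S A k p u| :=
        Finset.abs_sum_le_sum_abs _ _
    _ ≤ ∑ p ∈ Finset.range (⌊Real.exp u⌋₊ + 1), Real.exp u :=
        Finset.sum_le_sum fun p hp => E.rt_abs k hp
    _ = ((⌊Real.exp u⌋₊ : ℝ) + 1) * Real.exp u := by simp
    _ ≤ (Real.exp u + 1) * Real.exp u := by
        have := Nat.floor_le (Real.exp_pos u).le
        gcongr
    _ = Real.exp (2 * u) + Real.exp u := by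
        rw [two_mul, Real.exp_add]; ring

theorem aak_measurable (k : ℕ) : Measurable (aak S A k) := by
  have h1 : aak S A k = (fun x : ℕ × ℝ => ∑ p ∈ Finset.range (x.1 + 1), rt S A k p x.2) ∘
      (fun u : ℝ => (⌊Real.exp u⌋₊, u)) := by
    funext u; rfl
  rw [h1]
  refine Measurable.comp ?_ ((Nat.measurable_floor.comp Real.measurable_exp).prodMk measurable_id)
  refine measurable_from_prod_countable_right fun n => ?_
  refine Finset.measurable_fun_sum (M := ℝ) (Finset.range (n + 1)) fun p _ => ?_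
  unfold rt
  split_ifs
  · fun_prop
  · exact measurable_const

theorem LInt_exp {c w : ℝ} (h : c < w) : LInt (fun u => Real.exp (c * u)) w := by
  unfold LInt
  have h1 := integrableOn_exp_mul_Ioi (a := c - w) (by linarith) 0
  refine h1.congr_fun (fun u _ => ?_) measurableSet_Ioi
  simp only []
  rw [← Real.exp_add]; congr 1; ring

theorem LInt.of_bound {f g : ℝ → ℝ} (hf : Measurable f) {w : ℝ} (hg : LInt g w)
    (h : ∀ u, 0 < u → |f u| ≤ g u) : LInt f w := by
  unfold LInt at *
  refine Integrable.mono hg ((hf.mul (by fun_prop)).aestronglyMeasurable) ?_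
  refine (ae_restrict_iff' measurableSet_Ioi).mpr (Eventually.of_forall fun u hu => ?_)
  rw [norm_mul, norm_mul]
  refine mul_le_mul_of_nonneg_right ?_ (norm_nonneg _)
  rw [Real.norm_eq_abs, Real.norm_eq_abs]
  exact (h u hu).trans (le_abs_self _)

theorem EData.aak_LInt (E : EData S A) (k : ℕ) {w : ℝ} (hw : 2 < w) : LInt (aak S A k) w := by
  have h1 : LInt (fun u => Real.exp (2 * u) + Real.exp (1 * u)) w :=
    (LInt_exp hw).add (LInt_exp (by linarith))
  refine LInt.of_bound (aak_measurable k) h1 fun u hu => ?_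
  have := E.aak_abs k u
  simpa using this

/-- `v^k / k! e^{-wv}` on `[0, ∞)` -/
noncomputable def hh (k : ℕ) (w : ℂ) (v : ℝ) : ℂ :=
  (Ici (0 : ℝ)).indicator (fun v : ℝ => ((v ^ k / k.factorial : ℝ) : ℂ) * Complex.exp (-(w * v))) v

theorem pow_LInt (k : ℕ) {w : ℝ} (hw : 0 < w) : LInt (fun u => u ^ k) w := by
  unfold LInt
  by_contra h
  have h1 := integral_undef h
  have h2 := Real.integral_rpow_mul_exp_neg_mul_Ioi (a := k + 1) (by positivity) hw
  simp only [add_sub_cancel_right, Real.rpow_natCast] at h2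
  rw [h2] at h1
  have h3 : 0 < (1 / w) ^ ((k : ℝ) + 1) * Real.Gamma (k + 1) :=
    mul_pos (by positivity) (Real.Gamma_pos_of_pos (by positivity))
  linarith

theorem pow_lap (k : ℕ) {w : ℝ} (hw : 0 < w) : lap (fun u => u ^ k) w = k.factorial / w ^ (k + 1) := by
  unfold lap
  have h2 := Real.integral_rpow_mul_exp_neg_mul_Ioi (a := k + 1) (by positivity) hw
  simp only [add_sub_cancel_right, Real.rpow_natCast] at h2
  rw [h2, Real.Gamma_nat_eq_factorial]
  have : (1 / w) ^ ((k : ℝ) + 1) = 1 / w ^ (k + 1) := by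
    rw [show ((k : ℝ) + 1) = ((k + 1 : ℕ) : ℝ) by push_cast; ring, Real.rpow_natCast, one_div_pow]
  rw [this]; ring

theorem hh_integrable (k : ℕ) {w : ℂ} (hw : 0 < w.re) : Integrable (hh k w) := by
  unfold hh
  rw [integrable_indicator_iff measurableSet_Ici, integrableOn_Ici_iff_integrableOn_Ioi]
  have h1 : LInt (fun u => u ^ k / k.factorial) w.re := by
    have := (pow_LInt k hw).const_mul (1 / (k.factorial : ℝ))
    simpa [div_eq_inv_mul] using this
  exact LInt.complex (by fun_prop) h1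

theorem hh_norm_integral (k : ℕ) {w : ℂ} (hw : 0 < w.re) :
    ∫ v, ‖hh k w v‖ = 1 / w.re ^ (k + 1) := by
  unfold hh
  simp only [norm_indicator_eq_indicator_norm]
  rw [integral_indicator measurableSet_Ici, integral_Ici_eq_integral_Ioi]
  have h1 : lap (fun u => (1 / (k.factorial : ℝ)) * u ^ k) w.re = 1 / w.re ^ (k + 1) := by
    rw [lap_const_mul, pow_lap k hw]
    have : (k.factorial : ℝ) ≠ 0 := by positivity
    field_simp
  rw [← h1]
  unfold lap
  refine setIntegral_congr_fun measurableSet_Ioi fun v hv => ?_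
  have hv' : (0 : ℝ) < v := hv
  simp only []
  rw [norm_mul, Complex.norm_exp, Complex.norm_real, Real.norm_of_nonneg (by positivity)]
  simp
  ring

theorem pow_lapC (k : ℕ) {w : ℂ} (hw : 0 < w.re) :
    lapC (fun u => u ^ k / k.factorial) w = 1 / w ^ (k + 1) := by
  have hm : Measurable fun u : ℝ => u ^ k / (k.factorial : ℝ) := by fun_prop
  have hL : ∀ w > 0, LInt (fun u : ℝ => u ^ k / (k.factorial : ℝ)) w := fun w hw => by
    have := (pow_LInt k hw).const_mul (1 / (k.factorial : ℝ))
    simpa [div_eq_inv_mul] using this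
  have h1 : AnalyticOnNhd ℂ (lapC (fun u => u ^ k / k.factorial)) {z : ℂ | 0 < z.re} := by
    refine DifferentiableOn.analyticOnNhd (fun z hz => ?_) (isOpen_half 0)
    exact (lapC_differentiableAt hm hL hz).differentiableWithinAt
  have h2 : AnalyticOnNhd ℂ (fun z : ℂ => 1 / z ^ (k + 1)) {z : ℂ | 0 < z.re} := by
    refine DifferentiableOn.analyticOnNhd (fun z hz => ?_) (isOpen_half 0)
    have hz' : 0 < z.re := hz
    refine DifferentiableAt.differentiableWithinAt ?_
    refine (differentiableAt_const _).div (differentiableAt_id.pow _) (pow_ne_zero _ ?_)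
    rintro h
    have h' : z = 0 := h
    rw [h'] at hz'
    simp at hz'
  have h3 : Tendsto (fun x : ℝ => (x : ℂ)) (𝓝[≠] 1) (𝓝[≠] 1) := by
    rw [tendsto_nhdsWithin_iff]
    constructor
    · have := Complex.continuous_ofReal.tendsto 1
      rw [Complex.ofReal_one] at this
      exact tendsto_nhdsWithin_of_tendsto_nhds this
    · filter_upwards [self_mem_nhdsWithin] with x hx
      have : x ≠ 1 := hx
      show (x : ℂ) ≠ 1
      exact_mod_cast this
  have h4 : ∃ᶠ z in 𝓝[≠] (1 : ℂ), lapC (fun u => u ^ k / k.factorial) z = 1 / z ^ (k + 1) := by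
    refine h3.frequently (Eventually.frequently ?_)
    have h5 : ∀ᶠ x : ℝ in 𝓝[≠] 1, 0 < x := nhdsWithin_le_nhds (lt_mem_nhds one_pos)
    filter_upwards [h5] with x hx
    have h6 : lap (fun u => (1 / (k.factorial : ℝ)) * u ^ k) x = 1 / x ^ (k + 1) := by
      rw [lap_const_mul, pow_lap k hx]
      have : (k.factorial : ℝ) ≠ 0 := by positivity
      field_simp
    have h7 : (fun u : ℝ => (1 / (k.factorial : ℝ)) * u ^ k) = fun u => u ^ k / (k.factorial : ℝ) := by
      funext u; ring
    rw [lapC_ofReal, ← h7, h6]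
    push_cast
    rfl
  exact h1.eqOn_of_preconnected_of_frequently_eq h2 (preconn_half 0)
    (show (1 : ℂ) ∈ {z : ℂ | 0 < z.re} by simp) h4 hw

theorem hh_integral (k : ℕ) {w : ℂ} (hw : 0 < w.re) :
    ∫ v, hh k w v = 1 / w ^ (k + 1) := by
  unfold hh
  rw [integral_indicator measurableSet_Ici, integral_Ici_eq_integral_Ioi]
  exact pow_lapC k hw

/-- the terms of the Laplace transform -/
noncomputable def FF (S : Set ℕ) (A : ℕ → ℝ) (k : ℕ) (w : ℂ) (p : ℕ) (u : ℝ) : ℂ :=
  if p ∈ S then ((cc A p : ℂ) * xp p w) * hh k w (u - Real.log p) else 0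

theorem xp_eq_exp {p : ℕ} (hp : 1 ≤ p) (w : ℂ) : xp p w = Complex.exp (-(w * Real.log p)) := by
  unfold xp
  rw [Complex.cpow_def_of_ne_zero (by exact_mod_cast (show p ≠ 0 by omega)),
    Complex.ofReal_log (by positivity), Complex.ofReal_natCast]
  congr 1; ring

theorem FF_tsum (E : EData S A) (k : ℕ) (w : ℂ) (u : ℝ) :
    ∑' p, FF S A k w p u = (aak S A k u : ℂ) * Complex.exp (-(w * u)) := by
  have h1 : ∀ p ∉ Finset.range (⌊Real.exp u⌋₊ + 1), FF S A k w p u = 0 := by
    intro p hp
    unfold FF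
    split_ifs with h
    · rw [mem_iff E h] at hp
      unfold hh
      rw [indicator_of_notMem, mul_zero]
      rw [mem_Ici]
      linarith
    · rfl
  rw [tsum_eq_sum h1]
  unfold aak
  push_cast
  rw [Finset.sum_mul]
  refine Finset.sum_congr rfl fun p hp => ?_
  unfold FF rt
  split_ifs with h
  · rw [mem_iff E h] at hp
    unfold hh
    rw [indicator_of_mem (by rw [mem_Ici]; linarith)]
    have h25 := E.big p h
    rw [xp_eq_exp (by omega)]
    have h2 : Complex.exp (-(w * u)) = Complex.exp (-(w * Real.log p)) *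
        Complex.exp (-(w * ((u - Real.log p : ℝ) : ℂ))) := by
      rw [← Complex.exp_add]; congr 1; push_cast; ring
    rw [h2]
    push_cast
    ring
  · simp

theorem FF_int (k : ℕ) {w : ℂ} (hw : 0 < w.re) (p : ℕ) : Integrable (FF S A k w p) := by
  unfold FF
  split_ifs with h
  · exact ((hh_integrable k hw).comp_sub_right _).const_mul _
  · exact integrable_zero _ _ _

theorem FF_integral (k : ℕ) {w : ℂ} (hw : 0 < w.re) (p : ℕ) :
    ∫ u, FF S A k w p u = if p ∈ S then (cc A p : ℂ) * xp p w / w ^ (k + 1) else 0 := by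
  unfold FF
  split_ifs with h
  · rw [integral_const_mul, integral_sub_right_eq_self (fun v => hh k w v), hh_integral k hw]
    ring
  · simp

theorem FF_norm_integral (E : EData S A) (k : ℕ) {w : ℂ} (hw : 0 < w.re) (p : ℕ) :
    ∫ u, ‖FF S A k w p u‖ ≤ (p : ℝ) ^ (-w.re) * (1 / w.re ^ (k + 1)) := by
  unfold FF
  split_ifs with h
  · have h25 := E.big p h
    have e : ∀ u : ℝ, ‖((cc A p : ℂ) * xp p w) * hh k w (u - Real.log p)‖ =
        (|cc A p| * (p : ℝ) ^ (-w.re)) * ‖hh k w (u - Real.log p)‖ := by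
      intro u
      rw [norm_mul, norm_mul, norm_xp (by omega), Complex.norm_real, Real.norm_eq_abs]
    simp only [e]
    rw [integral_const_mul, integral_sub_right_eq_self (fun v => ‖hh k w v‖),
      hh_norm_integral k hw]
    have h5 := E.cc_abs h
    have h6 : 0 ≤ (p : ℝ) ^ (-w.re) * (1 / w.re ^ (k + 1)) := by positivity
    nlinarith
  · simp only [norm_zero, integral_zero]
    positivity

theorem FF_summable (E : EData S A) (k : ℕ) {w : ℂ} (hw : 1 < w.re) :
    Summable fun p => ∫ u, ‖FF S A k w p u‖ := by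
  refine Summable.of_nonneg_of_le (fun p => integral_nonneg fun u => norm_nonneg _)
    (fun p => FF_norm_integral E k (by linarith) p) ?_
  refine Summable.mul_right _ ?_
  exact Real.summable_nat_rpow.mpr (by linarith)

theorem aak_nonpos (E : EData S A) (k : ℕ) {u : ℝ} (hu : u ≤ 0) : aak S A k u = 0 := by
  unfold aak
  refine Finset.sum_eq_zero fun p hp => ?_
  unfold rt
  split_ifs with h
  · have h1 := (mem_iff E h u).mp hp
    have h2 := log_prime_pos E h
    linarith
  · rfl

/-- `w^{k+1} ∫ a_k(u) e^{-wu} du = ∑ c_p p^{-w}` -/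
theorem lap_hasSum (E : EData S A) (k : ℕ) {w : ℂ} (hw : 1 < w.re) :
    HasSum (fun p => if p ∈ S then (cc A p : ℂ) * xp p w else 0)
      (w ^ (k + 1) * lapC (aak S A k) w) := by
  have hw0 : w ≠ 0 := by
    rintro rfl
    simp at hw
    linarith
  have h1 := hasSum_integral_of_summable_integral_norm (fun p => FF_int (S := S) (A := A) k (by linarith : 0 < w.re) p)
    (FF_summable E k hw)
  simp only [FF_integral k (by linarith : 0 < w.re), FF_tsum E k] at h1
  have h2 := h1.mul_left (w ^ (k + 1))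
  have h4 : lapC (aak S A k) w = ∫ u : ℝ, (aak S A k u : ℂ) * Complex.exp (-(w * u)) := by
    unfold lapC
    rw [← integral_indicator measurableSet_Ioi]
    congr 1; funext u
    by_cases hu : u ∈ Ioi (0 : ℝ)
    · rw [indicator_of_mem hu]
    · rw [indicator_of_notMem hu, aak_nonpos E k (not_lt.mp hu)]
      simp
  rw [h4]
  have h3 : (fun p => if p ∈ S then (cc A p : ℂ) * xp p w else 0) =
      fun i => w ^ (k + 1) * if i ∈ S then (cc A i : ℂ) * xp i w / w ^ (k + 1) else 0 := by
    funext p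
    split_ifs
    · field_simp
    · simp
  rw [h3]
  exact h2

end Pool.Agent.W263.BSD
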