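import Pool.Agent.H21.L.R_seed8.W263.BSD.Asy

/-! Karamata's Tauberian theorem for the slowly varying function `log`, index `k + 1`. -/

set_option autoImplicit false

namespace Pool.Agent.W263.BSD

open MeasureTheory Filter Topology Set Polynomial

variable {b : ℝ → ℝ}

theorem kar_step1 (k : ℕ) {c : ℝ}
    (hlim : Tendsto (fun w : ℝ => w ^ (k + 1) * lap b w / (-Real.log w)) (𝓝[>] 0) (𝓝 c)) (j : ℕ) :
    Tendsto (fun w : ℝ => w ^ (k + 1) * lap b ((j + 1) * w) / (-Real.log w)) (𝓝[>] 0)
      (𝓝 (c / (j + 1) ^ (k + 1))) := by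
  have hj : (0 : ℝ) < j + 1 := by positivity
  have h1 : Tendsto (fun w : ℝ => ((j : ℝ) + 1) * w) (𝓝[>] 0) (𝓝[>] 0) := by
    rw [tendsto_nhdsWithin_iff]
    constructor
    · have : Tendsto (fun w : ℝ => ((j : ℝ) + 1) * w) (𝓝 0) (𝓝 (((j : ℝ) + 1) * 0)) :=
        tendsto_id.const_mul _
      rw [mul_zero] at this
      exact tendsto_nhdsWithin_of_tendsto_nhds this
    · filter_upwards [self_mem_nhdsWithin] with w hw
      have : (0 : ℝ) < w := hw
      exact mul_pos hj this
  have h2 := hlim.comp h1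
  have h3 : Tendsto (fun w : ℝ => -Real.log (((j : ℝ) + 1) * w) / (-Real.log w)) (𝓝[>] 0) (𝓝 1) := by
    have h4 : Tendsto (fun w : ℝ => 1 + Real.log ((j : ℝ) + 1) / Real.log w) (𝓝[>] 0)
        (𝓝 (1 + 0)) := by
      refine tendsto_const_nhds.add ?_
      exact Tendsto.const_div_atBot Real.tendsto_log_nhdsGT_zero _
    rw [add_zero] at h4
    refine h4.congr' ?_
    filter_upwards [Ioo_mem_nhdsGT (show (0 : ℝ) < 1 by norm_num)] with w hw
    have h5 : Real.log w ≠ 0 := (Real.log_neg hw.1 hw.2).ne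
    rw [Real.log_mul hj.ne' hw.1.ne']
    field_simp
    ring
  have h6 := (h2.mul h3).div_const (((j : ℝ) + 1) ^ (k + 1))
  rw [mul_one] at h6
  refine h6.congr' ?_
  have h7 : ∀ᶠ w : ℝ in 𝓝[>] 0, ((j : ℝ) + 1) * w < 1 := by
    have := h1.eventually (Ioo_mem_nhdsGT (show (0 : ℝ) < 1 by norm_num))
    filter_upwards [this] with w hw using hw.2
  filter_upwards [Ioo_mem_nhdsGT (show (0 : ℝ) < 1 by norm_num), h7] with w hw h7
  have h5 : Real.log w ≠ 0 := (Real.log_neg hw.1 hw.2).ne
  have h8 : Real.log (((j : ℝ) + 1) * w) ≠ 0 := (Real.log_neg (mul_pos hj hw.1) h7).ne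
  simp only [Function.comp_apply]
  rw [mul_pow]
  field_simp

/-- `∫ b(u) e^{-wu} Q(e^{-wu}) du` -/
noncomputable def TT (b : ℝ → ℝ) (Q : ℝ[X]) (w : ℝ) : ℝ :=
  ∫ u in Ioi (0 : ℝ), b u * (Real.exp (-(w * u)) * Q.eval (Real.exp (-(w * u))))

/-- `∫ v^k/k! e^{-v} g(e^{-v}) dv` -/
noncomputable def II (k : ℕ) (g : ℝ → ℝ) : ℝ :=
  ∫ v in Ioi (0 : ℝ), pk k v * (Real.exp (-v) * g (Real.exp (-v)))

theorem II_int (k : ℕ) {g : ℝ → ℝ} (hg : Measurable g) {B : ℝ} (hB : ∀ x ∈ Icc (0 : ℝ) 1, |g x| ≤ B) :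
    IntegrableOn (fun v => pk k v * (Real.exp (-v) * g (Real.exp (-v)))) (Ioi 0) := by
  have h1 := (pk_LInt k one_pos).const_mul B
  unfold LInt at h1
  refine Integrable.mono h1 ?_ ?_
  · refine Measurable.aestronglyMeasurable ?_
    exact (pk_meas k).mul ((by fun_prop : Measurable fun v : ℝ => Real.exp (-v)).mul
      (hg.comp (by fun_prop)))
  · refine (ae_restrict_iff' measurableSet_Ioi).mpr (Eventually.of_forall fun v hv => ?_)
    have hv0 : (0 : ℝ) < v := hv
    have hx0 : 0 < Real.exp (-v) := Real.exp_pos _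
    have hx1 : Real.exp (-v) ≤ 1 := by
      rw [Real.exp_le_one_iff]; linarith
    have h2 := hB _ ⟨hx0.le, hx1⟩
    have h3 := pk_nonneg k hv0.le
    have hB0 : 0 ≤ B := (abs_nonneg _).trans h2
    rw [one_mul, Real.norm_eq_abs, Real.norm_eq_abs, abs_mul, abs_mul, abs_mul, abs_mul,
      abs_of_nonneg h3, abs_of_pos hx0, abs_of_nonneg hB0]
    calc pk k v * (Real.exp (-v) * |g (Real.exp (-v))|) ≤ pk k v * (Real.exp (-v) * B) := by
          gcongr
      _ = B * pk k v * Real.exp (-v) := by ring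

theorem poly_bound (Q : ℝ[X]) : ∃ B : ℝ, ∀ x ∈ Icc (0 : ℝ) 1, |Q.eval x| ≤ B := by
  obtain ⟨B, hB⟩ := isCompact_Icc.exists_bound_of_continuousOn (s := Icc (0 : ℝ) 1)
    (f := fun x => Q.eval x) Q.continuous.continuousOn
  exact ⟨B, fun x hx => hB x hx⟩

theorem II_poly_int (k : ℕ) (Q : ℝ[X]) :
    IntegrableOn (fun v => pk k v * (Real.exp (-v) * Q.eval (Real.exp (-v)))) (Ioi 0) := by
  obtain ⟨B, hB⟩ := poly_bound Q
  exact II_int k Q.continuous.measurable hB

theorem kar_step2 (k : ℕ) (hi : ∀ w > 0, LInt b w) {c : ℝ}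
    (hlim : Tendsto (fun w : ℝ => w ^ (k + 1) * lap b w / (-Real.log w)) (𝓝[>] 0) (𝓝 c))
    (Q : ℝ[X]) :
    (∀ w > 0, IntegrableOn
      (fun u => b u * (Real.exp (-(w * u)) * Q.eval (Real.exp (-(w * u))))) (Ioi 0)) ∧
    Tendsto (fun w : ℝ => w ^ (k + 1) * TT b Q w / (-Real.log w)) (𝓝[>] 0)
      (𝓝 (c * II k fun x => Q.eval x)) := by
  induction Q using Polynomial.induction_on' with
  | add p q hp hq =>
    refine ⟨fun w hw => ?_, ?_⟩
    · refine ((hp.1 w hw).add (hq.1 w hw)).congr (Eventually.of_forall fun u => ?_)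
      simp only [Pi.add_apply, eval_add]
      ring
    · have h1 : ∀ᶠ w : ℝ in 𝓝[>] 0, w ^ (k + 1) * TT b p w / (-Real.log w) +
          w ^ (k + 1) * TT b q w / (-Real.log w) =
          w ^ (k + 1) * TT b (p + q) w / (-Real.log w) := by
        filter_upwards [self_mem_nhdsWithin] with w hw
        have : TT b (p + q) w = TT b p w + TT b q w := by
          unfold TT
          rw [← integral_add (hp.1 w hw) (hq.1 w hw)]
          congr 1; funext u
          rw [eval_add]; ring
        rw [this]; ring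
      have h2 : II k (fun x => (p + q).eval x) = II k (fun x => p.eval x) +
          II k fun x => q.eval x := by
        unfold II
        rw [← integral_add (II_poly_int k p) (II_poly_int k q)]
        congr 1; funext x
        simp only [eval_add]
        ring
      rw [h2, mul_add]
      exact (hp.2.add hq.2).congr' h1
  | monomial n a =>
    have e : ∀ w : ℝ, (fun u => b u * (Real.exp (-(w * u)) * (monomial n a).eval (Real.exp (-(w * u))))) =
        fun u => a * (b u * Real.exp (-((((n : ℝ) + 1) * w) * u))) := by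
      intro w; funext u
      rw [eval_monomial, ← Real.exp_nat_mul]
      have : Real.exp (-((((n : ℝ) + 1) * w) * u)) = Real.exp (-(w * u)) *
          Real.exp (n * -(w * u)) := by
        rw [← Real.exp_add]; congr 1; ring
      rw [this]; ring
    refine ⟨fun w hw => ?_, ?_⟩
    · rw [e w]
      exact Integrable.const_mul (hi _ (by positivity)) a
    · have h1 : ∀ w : ℝ, TT b (monomial n a) w = a * lap b (((n : ℝ) + 1) * w) := by
        intro w
        unfold TT lap
        rw [e w, integral_const_mul]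
      simp only [h1]
      have h2 := (kar_step1 k hlim n).const_mul a
      have h3 : II k (fun x => (monomial n a).eval x) = a * (1 / ((n : ℝ) + 1) ^ (k + 1)) := by
        rw [← pk_lap k (by positivity : (0 : ℝ) < (n : ℝ) + 1), ← lap_const_mul]
        unfold II lap
        congr 1; funext v
        simp only []
        rw [eval_monomial, ← Real.exp_nat_mul]
        have : Real.exp (-((((n : ℝ) + 1)) * v)) = Real.exp (-v) * Real.exp (n * -v) := by
          rw [← Real.exp_add]; congr 1; ring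
        rw [this]; ring
      rw [h3]
      have h4 : c * (a * (1 / ((n : ℝ) + 1) ^ (k + 1))) = a * (c / (n + 1) ^ (k + 1)) := by ring
      rw [h4]
      refine h2.congr fun w => ?_
      ring

/-- continuous majorant/minorant -/
noncomputable def ph (δ k x : ℝ) : ℝ :=
  max 0 (min 1 ((x - Real.exp (-1)) / δ + k)) * (max x (1 / 4))⁻¹

theorem ph_cont (δ k : ℝ) : Continuous (ph δ k) := by
  unfold ph
  refine Continuous.mul (by fun_prop) (Continuous.inv₀ (by fun_prop) fun x => ?_)
  have : (0 : ℝ) < max x (1 / 4) := lt_max_of_lt_right (by norm_num)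
  exact this.ne'

theorem ph_nonneg (δ k x : ℝ) : 0 ≤ ph δ k x := by
  unfold ph
  have : (0 : ℝ) < max x (1 / 4) := lt_max_of_lt_right (by norm_num)
  positivity

theorem ph_le4 (δ k x : ℝ) : ph δ k x ≤ 4 := by
  unfold ph
  have h1 : (max x (1 / 4))⁻¹ ≤ 4 := by
    rw [inv_le_comm₀ (lt_max_of_lt_right (by norm_num)) (by norm_num)]
    exact le_trans (by norm_num) (le_max_right _ _)
  have h2 : max 0 (min 1 ((x - Real.exp (-1)) / δ + k)) ≤ 1 := max_le zero_le_one (min_le_left _ _)
  have h3 : (0 : ℝ) ≤ max 0 (min 1 ((x - Real.exp (-1)) / δ + k)) := le_max_left _ _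
  have h4 : 0 ≤ (max x (1 / 4))⁻¹ := by
    have : (0 : ℝ) < max x (1 / 4) := lt_max_of_lt_right (by norm_num)
    positivity
  nlinarith

theorem quarter_lt : (1 / 4 : ℝ) < Real.exp (-1) := by
  rw [Real.exp_neg]
  rw [lt_inv_comm₀ (by norm_num) (Real.exp_pos 1)]
  have := Real.exp_one_lt_d9
  norm_num
  linarith

theorem exp_neg_one_lt : Real.exp (-1) < 1 := by
  rw [← Real.exp_zero]
  exact Real.exp_lt_exp.mpr (by norm_num)

theorem ph_le_inv (δ k : ℝ) {x : ℝ} (hx : Real.exp (-1) ≤ x) : ph δ k x ≤ 1 / x := by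
  have hx4 : (1 / 4 : ℝ) < x := lt_of_lt_of_le quarter_lt hx
  unfold ph
  rw [max_eq_left hx4.le, one_div]
  have h2 : max 0 (min 1 ((x - Real.exp (-1)) / δ + k)) ≤ 1 := max_le zero_le_one (min_le_left _ _)
  have h4 : 0 ≤ x⁻¹ := by
    have : 0 < x := by linarith
    positivity
  nlinarith


/-- the step function `e^{-v} f(e^{-v})` is the indicator of `v ≤ 1` -/
theorem step_integral (k : ℕ) :
    ∫ v in Ioi (0 : ℝ), pk k v * (Iic (1 : ℝ)).indicator (fun _ => 1) v = 1 / (k + 1).factorial := by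
  have e1 : (fun v => pk k v * (Iic (1 : ℝ)).indicator (fun _ => 1) v) =
      (Iic (1 : ℝ)).indicator (pk k) := by
    funext v
    by_cases h : v ∈ Iic (1 : ℝ)
    · rw [indicator_of_mem h, indicator_of_mem h, mul_one]
    · rw [indicator_of_notMem h, indicator_of_notMem h, mul_zero]
  rw [e1, setIntegral_indicator measurableSet_Iic, Ioi_inter_Iic,
    ← intervalIntegral.integral_of_le zero_le_one]
  unfold pk
  rw [intervalIntegral.integral_div, integral_pow, Nat.factorial_succ]
  have : (k.factorial : ℝ) ≠ 0 := by positivity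
  push_cast
  field_simp
  simp

/-- approximation of the step function -/
theorem ph_tendsto (k : ℕ) {c : ℝ} (hc : c = 0 ∨ c = 1) :
    Tendsto (fun n : ℕ => II k (ph (1 / ((n : ℝ) + 8)) c)) atTop (𝓝 (1 / (k + 1).factorial)) := by
  rw [← step_integral k]
  unfold II
  refine tendsto_integral_of_dominated_convergence (fun v => 4 * pk k v * Real.exp (-(1 * v)))
    ?_ ?_ ?_ ?_
  · intro n
    refine Measurable.aestronglyMeasurable ?_
    exact (pk_meas k).mul ((by fun_prop : Measurable fun v : ℝ => Real.exp (-v)).mul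
      ((ph_cont _ _).measurable.comp (by fun_prop)))
  · exact (pk_LInt k one_pos).const_mul 4
  · intro n
    refine (ae_restrict_iff' measurableSet_Ioi).mpr (Eventually.of_forall fun v hv => ?_)
    have hv0 : (0 : ℝ) < v := hv
    have h3 := pk_nonneg k hv0.le
    rw [Real.norm_eq_abs, abs_mul, abs_mul, abs_of_nonneg h3, abs_of_pos (Real.exp_pos _),
      abs_of_nonneg (ph_nonneg _ _ _), one_mul]
    have := ph_le4 (1 / ((n : ℝ) + 8)) c (Real.exp (-v))
    calc pk k v * (Real.exp (-v) * ph (1 / ((n : ℝ) + 8)) c (Real.exp (-v))) ≤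
          pk k v * (Real.exp (-v) * 4) := by gcongr
      _ = _ := by ring
  · have hne : ∀ᵐ v ∂(volume.restrict (Ioi (0 : ℝ))), v ≠ 1 :=
      ae_restrict_of_ae (Measure.ae_ne volume 1)
    have hpos : ∀ᵐ v ∂(volume.restrict (Ioi (0 : ℝ))), (0 : ℝ) < v :=
      (ae_restrict_iff' measurableSet_Ioi).mpr (Eventually.of_forall fun v hv => hv)
    filter_upwards [hne, hpos] with v hv1 hv0
    refine Tendsto.const_mul _ ?_
    refine tendsto_const_nhds.congr' ?_
    have hδ : Tendsto (fun n : ℕ => 1 / ((n : ℝ) + 8)) atTop (𝓝 0) := by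
      refine Tendsto.const_div_atTop ?_ 1
      exact tendsto_atTop_add_const_right _ _ tendsto_natCast_atTop_atTop
    rcases lt_or_gt_of_ne hv1 with h | h
    · -- `v < 1`
      have hx : Real.exp (-1) < Real.exp (-v) := Real.exp_lt_exp.mpr (by linarith)
      filter_upwards [hδ.eventually (gt_mem_nhds (sub_pos.mpr hx))] with n hn
      have hn0 : 0 < 1 / ((n : ℝ) + 8) := by positivity
      rw [indicator_of_mem (show v ∈ Iic (1 : ℝ) from h.le)]
      have hx4 : (1 / 4 : ℝ) < Real.exp (-v) := lt_trans quarter_lt hx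
      unfold ph
      rw [max_eq_left hx4.le]
      have h5 : (1 : ℝ) ≤ (Real.exp (-v) - Real.exp (-1)) / (1 / ((n : ℝ) + 8)) + c := by
        have : (1 : ℝ) ≤ (Real.exp (-v) - Real.exp (-1)) / (1 / ((n : ℝ) + 8)) := by
          rw [le_div_iff₀ hn0]; linarith
        rcases hc with h | h <;> rw [h] <;> linarith
      rw [min_eq_left h5, max_eq_right zero_le_one, one_mul, mul_inv_cancel₀ (Real.exp_pos _).ne']
    · -- `1 < v`
      have hx : Real.exp (-v) < Real.exp (-1) := Real.exp_lt_exp.mpr (by linarith)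
      filter_upwards [hδ.eventually (gt_mem_nhds (sub_pos.mpr hx))] with n hn
      have hn0 : 0 < 1 / ((n : ℝ) + 8) := by positivity
      rw [indicator_of_notMem (show v ∉ Iic (1 : ℝ) from not_le.mpr h)]
      unfold ph
      have h5 : (Real.exp (-v) - Real.exp (-1)) / (1 / ((n : ℝ) + 8)) + c ≤ 0 := by
        have : (Real.exp (-v) - Real.exp (-1)) / (1 / ((n : ℝ) + 8)) ≤ -1 := by
          rw [div_le_iff₀ hn0]; linarith
        rcases hc with h | h <;> rw [h] <;> linarith
      rw [min_eq_right (by linarith), max_eq_left h5, zero_mul, mul_zero]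

theorem II_one (k : ℕ) (c : ℝ) : II k (fun _ => c) = c := by
  unfold II
  have h := pk_lap k (one_pos : (0 : ℝ) < 1)
  unfold lap at h
  have e : ∀ v : ℝ, pk k v * (Real.exp (-v) * c) = c * (pk k v * Real.exp (-(1 * v))) := by
    intro v; rw [one_mul]; ring
  simp only [e]
  rw [integral_const_mul, h]
  simp

theorem II_mono (k : ℕ) {f g : ℝ → ℝ}
    (hf : IntegrableOn (fun v => pk k v * (Real.exp (-v) * f (Real.exp (-v)))) (Ioi 0))
    (hg : IntegrableOn (fun v => pk k v * (Real.exp (-v) * g (Real.exp (-v)))) (Ioi 0))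
    (h : ∀ x ∈ Icc (0 : ℝ) 1, f x ≤ g x) : II k f ≤ II k g := by
  unfold II
  refine setIntegral_mono_on hf hg measurableSet_Ioi fun v hv => ?_
  have hv0 : (0 : ℝ) < v := hv
  have hx0 : 0 < Real.exp (-v) := Real.exp_pos _
  have hx1 : Real.exp (-v) ≤ 1 := by
    rw [Real.exp_le_one_iff]; linarith
  have := pk_nonneg k hv0.le
  have := h _ ⟨hx0.le, hx1⟩
  gcongr

theorem ph_II_int (k : ℕ) (δ c : ℝ) :
    IntegrableOn (fun v => pk k v * (Real.exp (-v) * ph δ c (Real.exp (-v)))) (Ioi 0) :=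
  II_int k (ph_cont δ c).measurable (B := 4) fun x _ => by
    rw [abs_of_nonneg (ph_nonneg _ _ _)]; exact ph_le4 _ _ _

theorem poly_upper (k : ℕ) {η : ℝ} (hη : 0 < η) : ∃ Q : ℝ[X],
    (∀ x ∈ Icc (0 : ℝ) 1, 0 ≤ Q.eval x) ∧
    (∀ x ∈ Icc (Real.exp (-1)) 1, 1 / x ≤ Q.eval x) ∧
    II k (fun x => Q.eval x) ≤ 1 / (k + 1).factorial + η := by
  obtain ⟨n, hn⟩ := ((ph_tendsto k (Or.inr rfl)).eventually
    (gt_mem_nhds (show (1 : ℝ) / (k + 1).factorial < 1 / (k + 1).factorial + η / 2 by linarith))).exists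
  set δ : ℝ := 1 / ((n : ℝ) + 8) with hδ
  have hδ0 : 0 < δ := by positivity
  obtain ⟨P, hP⟩ := exists_polynomial_near_of_continuousOn 0 1 (ph δ 1) (ph_cont δ 1).continuousOn
    (η / 4) (by linarith)
  have h3 : ∀ x ∈ Icc (0 : ℝ) 1, ph δ 1 x ≤ (P + C (η / 4)).eval x := by
    intro x hx
    have := (abs_lt.mp (hP x hx)).1
    rw [eval_add, eval_C]; linarith
  refine ⟨P + C (η / 4), fun x hx => (ph_nonneg δ 1 x).trans (h3 x hx), fun x hx => ?_, ?_⟩
  · have hx4 : (1 / 4 : ℝ) < x := lt_of_lt_of_le quarter_lt hx.1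
    have h1 : ph δ 1 x = 1 / x := by
      unfold ph
      rw [max_eq_left hx4.le, one_div]
      have : (1 : ℝ) ≤ (x - Real.exp (-1)) / δ + 1 := by
        have : 0 ≤ (x - Real.exp (-1)) / δ := div_nonneg (by linarith [hx.1]) hδ0.le
        linarith
      rw [min_eq_left this, max_eq_right zero_le_one, one_mul]
    rw [← h1]
    exact h3 x ⟨(Real.exp_pos _).le.trans hx.1, hx.2⟩
  · have h4 : II k (fun x => (P + C (η / 4)).eval x) ≤ II k (fun x => ph δ 1 x + η / 2) := by
      refine II_mono k (II_poly_int k _) ?_ fun x hx => ?_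
      · refine II_int k ((ph_cont δ 1).measurable.add measurable_const) (B := 4 + η / 2)
          fun x _ => ?_
        simp only [Pi.add_apply]
        rw [abs_of_nonneg (add_nonneg (ph_nonneg _ _ _) (by linarith))]
        linarith [ph_le4 δ 1 x]
      have := (abs_lt.mp (hP x hx)).2
      rw [eval_add, eval_C]; linarith
    have h5 : II k (fun x => ph δ 1 x + η / 2) = II k (ph δ 1) + η / 2 := by
      rw [← II_one k (η / 2)]
      conv_rhs => unfold II
      rw [← integral_add (ph_II_int k δ 1) (II_int k measurable_const (B := |η / 2|) fun x _ => le_rfl)]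
      unfold II
      congr 1; funext v
      rw [show (∫ (v : ℝ) in Ioi 0, pk k v * (Real.exp (-v) * (η / 2))) = η / 2 from II_one k (η / 2)]
      ring
    rw [h5] at h4
    linarith

theorem poly_lower (k : ℕ) {η : ℝ} (hη : 0 < η) : ∃ Q : ℝ[X],
    (∀ x ∈ Icc (0 : ℝ) (Real.exp (-1)), Q.eval x ≤ 0) ∧
    (∀ x ∈ Icc (Real.exp (-1)) 1, Q.eval x ≤ 1 / x) ∧
    1 / (k + 1).factorial - η ≤ II k (fun x => Q.eval x) := by
  obtain ⟨n, hn⟩ := ((ph_tendsto k (Or.inl rfl)).eventually
    (lt_mem_nhds (show (1 : ℝ) / (k + 1).factorial - η / 2 < 1 / (k + 1).factorial by linarith))).exists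
  set δ : ℝ := 1 / ((n : ℝ) + 8) with hδ
  have hδ0 : 0 < δ := by positivity
  obtain ⟨P, hP⟩ := exists_polynomial_near_of_continuousOn 0 1 (ph δ 0) (ph_cont δ 0).continuousOn
    (η / 4) (by linarith)
  have h3 : ∀ x ∈ Icc (0 : ℝ) 1, (P - C (η / 4)).eval x ≤ ph δ 0 x := by
    intro x hx
    have := (abs_lt.mp (hP x hx)).2
    rw [eval_sub, eval_C]; linarith
  refine ⟨P - C (η / 4), fun x hx => ?_, fun x hx => ?_, ?_⟩
  · have h1 : ph δ 0 x = 0 := by
      unfold ph
      have : (x - Real.exp (-1)) / δ + 0 ≤ 0 := by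
        rw [add_zero]
        exact div_nonpos_of_nonpos_of_nonneg (by linarith [hx.2]) hδ0.le
      rw [min_eq_right (by linarith), max_eq_left this, zero_mul]
    rw [← h1]
    exact h3 x ⟨hx.1, hx.2.trans exp_neg_one_lt.le⟩
  · exact (h3 x ⟨(Real.exp_pos _).le.trans hx.1, hx.2⟩).trans (ph_le_inv δ 0 hx.1)
  · have h4 : II k (fun x => ph δ 0 x - η / 2) ≤ II k (fun x => (P - C (η / 4)).eval x) := by
      refine II_mono k ?_ (II_poly_int k _) fun x hx => ?_
      · refine II_int k ((ph_cont δ 0).measurable.sub measurable_const) (B := 4 + η / 2)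
          fun x _ => ?_
        simp only [Pi.sub_apply]
        rw [abs_le]
        constructor <;> linarith [ph_le4 δ 0 x, ph_nonneg δ 0 x]
      have := (abs_lt.mp (hP x hx)).1
      rw [eval_sub, eval_C]; linarith
    have h5 : II k (fun x => ph δ 0 x - η / 2) = II k (ph δ 0) - η / 2 := by
      rw [← II_one k (η / 2)]
      conv_rhs => unfold II
      rw [← integral_sub (ph_II_int k δ 0) (II_int k measurable_const (B := |η / 2|) fun x _ => le_rfl)]
      unfold II
      congr 1; funext v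
      rw [show (∫ (v : ℝ) in Ioi 0, pk k v * (Real.exp (-v) * (η / 2))) = η / 2 from II_one k (η / 2)]
      ring
    rw [h5] at h4
    linarith

end Pool.Agent.W263.BSD
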