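import Pool.Agent.H21.L.R_seed8.W263.BSD.Kara

/-! Karamata's Tauberian theorem for the slowly varying function `log`: conclusion. -/

set_option autoImplicit false

namespace Pool.Agent.W263.BSD

open MeasureTheory Filter Topology Set Polynomial

variable {b : ℝ → ℝ}

theorem b_integrable (hb : Measurable b) (hi : ∀ w > 0, LInt b w) (U : ℝ) :
    IntegrableOn b (Ioc 0 U) := by
  rcases le_or_gt U 0 with hU | hU
  · rw [Ioc_eq_empty (by linarith)]; exact integrableOn_empty
  have h1 : IntegrableOn (fun u => b u * Real.exp (-((1 / U) * u))) (Ioc 0 U) :=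
    IntegrableOn.mono_set (hi (1 / U) (by positivity)) Ioc_subset_Ioi_self
  refine Integrable.mono (Integrable.const_mul h1 (Real.exp 1)) hb.aestronglyMeasurable ?_
  refine (ae_restrict_iff' measurableSet_Ioc).mpr (Eventually.of_forall fun u hu => ?_)
  rw [norm_mul, norm_mul, Real.norm_of_nonneg (Real.exp_pos _).le,
    Real.norm_of_nonneg (Real.exp_pos _).le]
  have h2 : 1 ≤ Real.exp 1 * Real.exp (-((1 / U) * u)) := by
    rw [← Real.exp_add]
    apply Real.one_le_exp
    have : (1 / U) * u ≤ 1 := by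
      rw [one_div, inv_mul_le_iff₀ hU]; linarith [hu.2]
    linarith
  have h3 := norm_nonneg (b u)
  nlinarith

theorem upper_ineq (hb : Measurable b) (h0 : ∀ u, 0 < u → 0 ≤ b u) (hi : ∀ w > 0, LInt b w)
    {Q : ℝ[X]} (h1 : ∀ x ∈ Icc (0 : ℝ) 1, 0 ≤ Q.eval x)
    (h2 : ∀ x ∈ Icc (Real.exp (-1)) 1, 1 / x ≤ Q.eval x) {w : ℝ} (hw : 0 < w)
    (hint : IntegrableOn (fun u => b u * (Real.exp (-(w * u)) * Q.eval (Real.exp (-(w * u)))))
      (Ioi 0)) : ∫ u in Ioc 0 (1 / w), b u ≤ TT b Q w := by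
  have e1 : ∫ u in Ioc 0 (1 / w), b u = ∫ u in Ioi (0 : ℝ), (Iic (1 / w)).indicator b u := by
    rw [setIntegral_indicator measurableSet_Iic, Ioi_inter_Iic]
  rw [e1]
  unfold TT
  have hI : IntegrableOn ((Iic (1 / w)).indicator b) (Ioi 0) := by
    rw [IntegrableOn, integrable_indicator_iff measurableSet_Iic, IntegrableOn,
      Measure.restrict_restrict measurableSet_Iic, inter_comm, Ioi_inter_Iic]
    exact b_integrable hb hi _
  refine setIntegral_mono_on hI hint measurableSet_Ioi fun u hu => ?_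
  have hu0 : (0 : ℝ) < u := hu
  have hx0 : 0 < Real.exp (-(w * u)) := Real.exp_pos _
  have hx1 : Real.exp (-(w * u)) ≤ 1 := by
    rw [Real.exp_le_one_iff]
    have := mul_pos hw hu0
    linarith
  by_cases h : u ≤ 1 / w
  · rw [indicator_of_mem (show u ∈ Iic (1 / w) from h)]
    have h3 : Real.exp (-1) ≤ Real.exp (-(w * u)) := by
      apply Real.exp_le_exp.mpr
      have : w * u ≤ 1 := by
        rw [le_div_iff₀ hw] at h; linarith
      linarith
    have h4 := h2 _ ⟨h3, hx1⟩
    rw [div_le_iff₀ hx0] at h4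
    have h5 := h0 u hu0
    nlinarith
  · rw [indicator_of_notMem (show u ∉ Iic (1 / w) from h)]
    exact mul_nonneg (h0 u hu0) (mul_nonneg hx0.le (h1 _ ⟨hx0.le, hx1⟩))

theorem lower_ineq (hb : Measurable b) (h0 : ∀ u, 0 < u → 0 ≤ b u) (hi : ∀ w > 0, LInt b w)
    {Q : ℝ[X]} (h1 : ∀ x ∈ Icc (0 : ℝ) (Real.exp (-1)), Q.eval x ≤ 0)
    (h2 : ∀ x ∈ Icc (Real.exp (-1)) 1, Q.eval x ≤ 1 / x) {w : ℝ} (hw : 0 < w)
    (hint : IntegrableOn (fun u => b u * (Real.exp (-(w * u)) * Q.eval (Real.exp (-(w * u)))))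
      (Ioi 0)) : TT b Q w ≤ ∫ u in Ioc 0 (1 / w), b u := by
  have e1 : ∫ u in Ioc 0 (1 / w), b u = ∫ u in Ioi (0 : ℝ), (Iic (1 / w)).indicator b u := by
    rw [setIntegral_indicator measurableSet_Iic, Ioi_inter_Iic]
  rw [e1]
  unfold TT
  have hI : IntegrableOn ((Iic (1 / w)).indicator b) (Ioi 0) := by
    rw [IntegrableOn, integrable_indicator_iff measurableSet_Iic, IntegrableOn,
      Measure.restrict_restrict measurableSet_Iic, inter_comm, Ioi_inter_Iic]
    exact b_integrable hb hi _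
  refine setIntegral_mono_on hint hI measurableSet_Ioi fun u hu => ?_
  have hu0 : (0 : ℝ) < u := hu
  have hx0 : 0 < Real.exp (-(w * u)) := Real.exp_pos _
  have hx1 : Real.exp (-(w * u)) ≤ 1 := by
    rw [Real.exp_le_one_iff]
    have := mul_pos hw hu0
    linarith
  by_cases h : u ≤ 1 / w
  · rw [indicator_of_mem (show u ∈ Iic (1 / w) from h)]
    have h3 : Real.exp (-1) ≤ Real.exp (-(w * u)) := by
      apply Real.exp_le_exp.mpr
      have : w * u ≤ 1 := by
        rw [le_div_iff₀ hw] at h; linarith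
      linarith
    have h4 := h2 _ ⟨h3, hx1⟩
    rw [le_div_iff₀ hx0] at h4
    have h5 := h0 u hu0
    nlinarith
  · rw [indicator_of_notMem (show u ∉ Iic (1 / w) from h)]
    have h3 : Real.exp (-(w * u)) ≤ Real.exp (-1) := by
      apply Real.exp_le_exp.mpr
      have : 1 < w * u := by
        rw [not_le, div_lt_iff₀ hw] at h; linarith
      linarith
    exact mul_nonpos_of_nonneg_of_nonpos (h0 u hu0)
      (mul_nonpos_of_nonneg_of_nonpos hx0.le (h1 _ ⟨hx0.le, h3⟩))

/-- **Karamata's theorem** for `log`, index `k + 1`. -/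
theorem karamata (k : ℕ) (hb : Measurable b) (h0 : ∀ u, 0 < u → 0 ≤ b u) (hi : ∀ w > 0, LInt b w)
    {c : ℝ}
    (hlim : Tendsto (fun w : ℝ => w ^ (k + 1) * lap b w / (-Real.log w)) (𝓝[>] 0) (𝓝 c)) :
    Tendsto (fun U : ℝ => (∫ u in Ioc 0 U, b u) / (U ^ (k + 1) / (k + 1).factorial * Real.log U))
      atTop (𝓝 c) := by
  have hf : (0 : ℝ) < (k + 1).factorial := by positivity
  have hsmall : ∀ᶠ w : ℝ in 𝓝[>] 0, 0 < w ∧ 0 < -Real.log w := by
    filter_upwards [Ioo_mem_nhdsGT (show (0 : ℝ) < 1 by norm_num)] with w hw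
    have := Real.log_neg hw.1 hw.2
    exact ⟨hw.1, by linarith⟩
  have hc : 0 ≤ c := by
    refine ge_of_tendsto hlim ?_
    filter_upwards [hsmall] with w hw
    exact div_nonneg (mul_nonneg (pow_pos hw.1 _).le (lap_nonneg h0 w)) hw.2.le
  have hD : Tendsto (fun w : ℝ => w ^ (k + 1) * (∫ u in Ioc 0 (1 / w), b u) / (-Real.log w))
      (𝓝[>] 0) (𝓝 (c * (1 / (k + 1).factorial))) := by
    set e : ℝ := 1 / (k + 1).factorial with he
    rw [tendsto_order]
    constructor
    · intro l hl
      set η : ℝ := (c * e - l) / (2 * (c + 1)) with hη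
      have hη0 : 0 < η := div_pos (by linarith) (by linarith)
      obtain ⟨Q, hQ1, hQ2, hQ3⟩ := poly_lower k hη0
      obtain ⟨hint, hT⟩ := kar_step2 k hi hlim Q
      have h1 : l < c * II k fun x => Q.eval x := by
        have h2 : c * (e - η) ≤ c * II k fun x => Q.eval x :=
          mul_le_mul_of_nonneg_left hQ3 hc
        have h3 : c * η ≤ (c * e - l) / 2 := by
          rw [hη, mul_div_assoc', div_le_div_iff₀ (by linarith) (by norm_num)]
          nlinarith
        linarith
      filter_upwards [hT.eventually (lt_mem_nhds h1), hsmall] with w h4 h5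
      refine lt_of_lt_of_le h4 ?_
      exact div_le_div_of_nonneg_right
        (mul_le_mul_of_nonneg_left (lower_ineq hb h0 hi hQ1 hQ2 h5.1 (hint w h5.1))
          (pow_pos h5.1 _).le) h5.2.le
    · intro m hm
      set η : ℝ := (m - c * e) / (2 * (c + 1)) with hη
      have hη0 : 0 < η := div_pos (by linarith) (by linarith)
      obtain ⟨Q, hQ1, hQ2, hQ3⟩ := poly_upper k hη0
      obtain ⟨hint, hT⟩ := kar_step2 k hi hlim Q
      have h1 : (c * II k fun x => Q.eval x) < m := by
        have h2 : (c * II k fun x => Q.eval x) ≤ c * (e + η) :=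
          mul_le_mul_of_nonneg_left hQ3 hc
        have h3 : c * η ≤ (m - c * e) / 2 := by
          rw [hη, mul_div_assoc', div_le_div_iff₀ (by linarith) (by norm_num)]
          nlinarith
        linarith
      filter_upwards [hT.eventually (gt_mem_nhds h1), hsmall] with w h4 h5
      refine lt_of_le_of_lt ?_ h4
      exact div_le_div_of_nonneg_right
        (mul_le_mul_of_nonneg_left (upper_ineq hb h0 hi hQ1 hQ2 h5.1 (hint w h5.1))
          (pow_pos h5.1 _).le) h5.2.le
  have h1 := (hD.comp tendsto_inv_atTop_nhdsGT_zero).mul_const ((k + 1).factorial : ℝ)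
  have h2 : c * (1 / ((k + 1).factorial : ℝ)) * (k + 1).factorial = c := by field_simp
  rw [h2] at h1
  refine h1.congr' ?_
  filter_upwards [eventually_gt_atTop 1] with U hU
  have hU0 : 0 < U := by linarith
  have hl : Real.log U ≠ 0 := (Real.log_pos hU).ne'
  simp only [Function.comp_apply]
  rw [one_div, inv_inv, Real.log_inv, neg_neg, inv_pow]
  field_simp

end Pool.Agent.W263.BSD
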