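import Pool.Agent.H21.L.R_seed8.W263.BSD.Lead2

/-! A one-sided Tauberian theorem for bounded functions. -/

set_option autoImplicit false

namespace Pool.Agent.W263.BSD

open MeasureTheory Filter Topology Set Classical Polynomial

/-- `w ∫ f(u) g(e^{-wu}) e^{-wu} du` -/
noncomputable def TG (f g : ℝ → ℝ) (w : ℝ) : ℝ :=
  w * ∫ u in Ioi (0 : ℝ), f u * g (Real.exp (-(w * u))) * Real.exp (-(w * u))

theorem TG_int {f g : ℝ → ℝ} (hg : Measurable g) {B : ℝ} (hB : ∀ x ∈ Icc (0 : ℝ) 1, |g x| ≤ B)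
    {w : ℝ} (hw : 0 < w) (h : LInt f w) :
    IntegrableOn (fun u => f u * g (Real.exp (-(w * u))) * Real.exp (-(w * u))) (Ioi 0) := by
  have h1 : IntegrableOn (fun u => (f u * Real.exp (-(w * u))) * g (Real.exp (-(w * u)))) (Ioi 0) := by
    refine Integrable.mul_bdd (c := B) h (Measurable.aestronglyMeasurable (by fun_prop)) ?_
    refine (ae_restrict_iff' measurableSet_Ioi).mpr (Eventually.of_forall fun u hu => ?_)
    have hu' : (0 : ℝ) < u := hu
    refine hB _ ⟨(Real.exp_pos _).le, ?_⟩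
    rw [Real.exp_le_one_iff]
    have := mul_pos hw hu'
    linarith
  refine h1.congr_fun (fun u _ => ?_) measurableSet_Ioi
  simp only []
  ring

theorem TG_poly {f : ℝ → ℝ} (hi : ∀ w > 0, LInt f w) {C : ℝ}
    (hC : Tendsto (fun w : ℝ => w * lap f w) (𝓝[>] 0) (𝓝 C)) (Q : ℝ[X]) :
    Tendsto (TG f (fun x => Q.eval x)) (𝓝[>] 0) (𝓝 (C * ∫ x in (0 : ℝ)..1, Q.eval x)) := by
  have hpb : ∀ Q : ℝ[X], ∃ B : ℝ, ∀ x ∈ Icc (0 : ℝ) 1, |Q.eval x| ≤ B := poly_bound
  induction Q using Polynomial.induction_on' with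
  | add P Q hP hQ =>
    have h1 : (C * ∫ x in (0 : ℝ)..1, (P + Q).eval x) =
        C * (∫ x in (0 : ℝ)..1, P.eval x) + C * ∫ x in (0 : ℝ)..1, Q.eval x := by
      rw [← mul_add, ← intervalIntegral.integral_add (P.continuous.intervalIntegrable _ _)
        (Q.continuous.intervalIntegrable _ _)]
      simp only [eval_add]
    rw [h1]
    refine (hP.add hQ).congr' ?_
    filter_upwards [self_mem_nhdsWithin] with w hw
    have hw0 : (0 : ℝ) < w := hw
    obtain ⟨B1, hB1⟩ := hpb P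
    obtain ⟨B2, hB2⟩ := hpb Q
    unfold TG
    rw [← mul_add, ← integral_add (TG_int P.continuous.measurable hB1 hw0 (hi w hw0))
      (TG_int Q.continuous.measurable hB2 hw0 (hi w hw0))]
    congr 1
    refine setIntegral_congr_fun measurableSet_Ioi fun u _ => ?_
    simp only [eval_add]
    ring
  | monomial j c =>
    have h1 : Tendsto (fun w : ℝ => ((j : ℝ) + 1) * w) (𝓝[>] 0) (𝓝[>] 0) := by
      rw [tendsto_nhdsWithin_iff]
      constructor
      · have : Tendsto (fun w : ℝ => ((j : ℝ) + 1) * w) (𝓝 0) (𝓝 (((j : ℝ) + 1) * 0)) :=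
          tendsto_id.const_mul _
        rw [mul_zero] at this
        exact tendsto_nhdsWithin_of_tendsto_nhds this
      · filter_upwards [self_mem_nhdsWithin] with w hw
        have : (0 : ℝ) < w := hw
        show (0 : ℝ) < ((j : ℝ) + 1) * w
        positivity
    have h2 := (hC.comp h1).mul_const (c / ((j : ℝ) + 1))
    have h3 : (C * ∫ x in (0 : ℝ)..1, (monomial j c).eval x) = C * (c / ((j : ℝ) + 1)) := by
      congr 1
      simp only [eval_monomial]
      rw [intervalIntegral.integral_const_mul, integral_pow]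
      simp
      ring
    rw [h3]
    refine h2.congr' ?_
    filter_upwards [self_mem_nhdsWithin] with w hw
    simp only [Function.comp_apply]
    unfold TG lap
    have h4 : ∫ u in Ioi (0 : ℝ), f u * (monomial j c).eval (Real.exp (-(w * u))) *
        Real.exp (-(w * u)) = c * ∫ u in Ioi (0 : ℝ), f u * Real.exp (-(((j : ℝ) + 1) * w * u)) := by
      rw [← integral_const_mul]
      refine setIntegral_congr_fun measurableSet_Ioi fun u _ => ?_
      simp only [eval_monomial]
      rw [← Real.exp_nat_mul]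
      have h5 : Real.exp (-(((j : ℝ) + 1) * w * u)) =
          Real.exp ((j : ℝ) * -(w * u)) * Real.exp (-(w * u)) := by
        rw [← Real.exp_add]; congr 1; ring
      rw [h5]
      ring
    rw [h4]
    have : (j : ℝ) + 1 ≠ 0 := by positivity
    field_simp

theorem TG_cont {f : ℝ → ℝ} (hi : ∀ w > 0, LInt f w) {M : ℝ}
    (hM : ∀ u, 0 < u → |f u| ≤ M) {C : ℝ}
    (hC : Tendsto (fun w : ℝ => w * lap f w) (𝓝[>] 0) (𝓝 C)) {g : ℝ → ℝ} (hg : Continuous g) :
    Tendsto (TG f g) (𝓝[>] 0) (𝓝 (C * ∫ x in (0 : ℝ)..1, g x)) := by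
  have hM0 : 0 ≤ M := (abs_nonneg _).trans (hM 1 one_pos)
  rw [Metric.tendsto_nhds]
  intro ε hε
  set η : ℝ := ε / (2 * (M + |C| + 1)) with hη
  have hη0 : 0 < η := by positivity
  obtain ⟨Q, hQ⟩ := exists_polynomial_near_of_continuousOn 0 1 g hg.continuousOn η hη0
  have h1 := TG_poly hi hC Q
  rw [Metric.tendsto_nhds] at h1
  have h2 := h1 (ε / 2) (half_pos hε)
  obtain ⟨B1, hB1⟩ := poly_bound Q
  have hB2 : ∀ x ∈ Icc (0 : ℝ) 1, |g x| ≤ B1 + η := by
    intro x hx
    have e1 := abs_lt.mp (hQ x hx)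
    have e2 := abs_le.mp (hB1 x hx)
    rw [abs_le]
    constructor <;> linarith
  filter_upwards [h2, self_mem_nhdsWithin] with w h3 hw
  have hw0 : (0 : ℝ) < w := hw
  rw [Real.dist_eq] at h3 ⊢
  have e1 : |TG f g w - TG f (fun x => Q.eval x) w| ≤ M * η := by
    unfold TG
    rw [← mul_sub, ← integral_sub (TG_int hg.measurable hB2 hw0 (hi w hw0))
      (TG_int Q.continuous.measurable hB1 hw0 (hi w hw0)), abs_mul, abs_of_pos hw0]
    have e2 : |∫ u in Ioi (0 : ℝ), (f u * g (Real.exp (-(w * u))) * Real.exp (-(w * u)) -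
        f u * Q.eval (Real.exp (-(w * u))) * Real.exp (-(w * u)))| ≤
        ∫ u in Ioi (0 : ℝ), (M * η) * (1 * Real.exp (-(w * u))) := by
      rw [← Real.norm_eq_abs]
      have e0 : Integrable (fun u : ℝ => (M * η) * (1 * Real.exp (-(w * u))))
          (volume.restrict (Ioi 0)) := Integrable.const_mul (one_LInt hw0) (M * η)
      refine norm_integral_le_of_norm_le e0 ?_
      refine (ae_restrict_iff' measurableSet_Ioi).mpr (Eventually.of_forall fun u hu => ?_)
      have hu' : (0 : ℝ) < u := hu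
      rw [← sub_mul, ← mul_sub, norm_mul, norm_mul, Real.norm_of_nonneg (Real.exp_pos _).le,
        one_mul]
      refine mul_le_mul_of_nonneg_right ?_ (Real.exp_pos _).le
      have h5 : Real.exp (-(w * u)) ∈ Icc (0 : ℝ) 1 := by
        refine ⟨(Real.exp_pos _).le, ?_⟩
        rw [Real.exp_le_one_iff]
        have := mul_pos hw0 hu'
        linarith
      have h6 := hQ _ h5
      rw [abs_sub_comm] at h6
      exact mul_le_mul (hM u hu') h6.le (norm_nonneg _) hM0
    have e3 : ∫ u in Ioi (0 : ℝ), (M * η) * (1 * Real.exp (-(w * u))) = (M * η) * (1 / w) := by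
      rw [integral_const_mul]
      congr 1
      exact one_lap hw0
    rw [e3] at e2
    calc w * |_| ≤ w * ((M * η) * (1 / w)) := mul_le_mul_of_nonneg_left e2 hw0.le
      _ = M * η := by field_simp
  have e2 : |C * (∫ x in (0 : ℝ)..1, Q.eval x) - C * ∫ x in (0 : ℝ)..1, g x| ≤ |C| * η := by
    rw [← mul_sub, ← intervalIntegral.integral_sub (Q.continuous.intervalIntegrable _ _)
      (hg.intervalIntegrable _ _), abs_mul]
    refine mul_le_mul_of_nonneg_left ?_ (abs_nonneg _)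
    have := intervalIntegral.norm_integral_le_of_norm_le_const (a := (0 : ℝ)) (b := 1) (C := η)
      (f := fun x => Q.eval x - g x) (fun x hx => by
        rw [uIoc_of_le zero_le_one] at hx
        exact (hQ x ⟨hx.1.le, hx.2⟩).le)
    rw [Real.norm_eq_abs] at this
    simpa using this
  have e3 : (M + |C| + 1) * η = ε / 2 := by
    rw [hη]; field_simp
  have e4 : TG f g w - C * ∫ x in (0 : ℝ)..1, g x =
      (TG f g w - TG f (fun x => Q.eval x) w) +
      (TG f (fun x => Q.eval x) w - C * ∫ x in (0 : ℝ)..1, Q.eval x) +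
      (C * (∫ x in (0 : ℝ)..1, Q.eval x) - C * ∫ x in (0 : ℝ)..1, g x) := by ring
  rw [e4]
  have e5 := abs_add_three (TG f g w - TG f (fun x => Q.eval x) w)
    (TG f (fun x => Q.eval x) w - C * ∫ x in (0 : ℝ)..1, Q.eval x)
    (C * (∫ x in (0 : ℝ)..1, Q.eval x) - C * ∫ x in (0 : ℝ)..1, g x)
  nlinarith

/-- the bump -/
noncomputable def bmp (δ x : ℝ) : ℝ :=
  max 0 ((x - Real.exp (-(1 + δ))) * (Real.exp (-1) - x))

theorem bmp_cont (δ : ℝ) : Continuous (bmp δ) := by unfold bmp; fun_prop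

theorem bmp_nonneg (δ x : ℝ) : 0 ≤ bmp δ x := le_max_left _ _

theorem bmp_supp {δ w u : ℝ} (hδ : 0 < δ) (h : bmp δ (Real.exp (-(w * u))) ≠ 0) :
    1 < w * u ∧ w * u < 1 + δ := by
  unfold bmp at h
  have h1 : 0 < (Real.exp (-(w * u)) - Real.exp (-(1 + δ))) *
      (Real.exp (-1) - Real.exp (-(w * u))) := by
    by_contra hcon
    push Not at hcon
    exact h (max_eq_left hcon)
  have h2 : Real.exp (-(1 + δ)) < Real.exp (-1) := Real.exp_lt_exp.mpr (by linarith)
  rcases mul_pos_iff.mp h1 with ⟨h3, h4⟩ | ⟨h3, h4⟩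
  · have e1 := Real.exp_lt_exp.mp (sub_pos.mp h3)
    have e2 := Real.exp_lt_exp.mp (sub_pos.mp h4)
    constructor <;> linarith
  · linarith

theorem bmp_pos {δ : ℝ} (hδ : 0 < δ) : 0 < ∫ x in (0 : ℝ)..1, bmp δ x := by
  set x0 : ℝ := Real.exp (-(1 + δ / 2)) with hx0
  have h1 : Real.exp (-(1 + δ)) < x0 := Real.exp_lt_exp.mpr (by linarith)
  have h2 : x0 < Real.exp (-1) := Real.exp_lt_exp.mpr (by linarith)
  have h3 : Real.exp (-1 : ℝ) ≤ 1 := by rw [Real.exp_le_one_iff]; norm_num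
  have h4 := Real.exp_pos (-(1 + δ))
  refine intervalIntegral.integral_pos zero_lt_one (bmp_cont δ).continuousOn
    (fun x _ => bmp_nonneg δ x) ⟨x0, ⟨by linarith, by linarith⟩, ?_⟩
  unfold bmp
  rw [lt_max_iff]
  right
  exact mul_pos (by linarith) (by linarith)

/-- **One-sided Tauberian theorem** for bounded functions. -/
theorem tauber_limit {f : ℝ → ℝ} (hf : Measurable f) (hi : ∀ w > 0, LInt f w) {M : ℝ}
    (hM : ∀ u, 0 < u → |f u| ≤ M) {C : ℝ}
    (hC : Tendsto (fun w : ℝ => w * lap f w) (𝓝[>] 0) (𝓝 C))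
    (hs : ∀ ε > 0, ∃ δ > 0, ∃ u0 : ℝ, ∀ u v, u0 ≤ u → u ≤ v → v ≤ (1 + δ) * u → f v ≤ f u + ε) :
    Tendsto f atTop (𝓝 C) := by
  have hone : Tendsto (fun w : ℝ => w * lap (fun _ => (1 : ℝ)) w) (𝓝[>] 0) (𝓝 1) := by
    refine tendsto_const_nhds.congr' ?_
    filter_upwards [self_mem_nhdsWithin] with w hw
    have hw0 : (0 : ℝ) < w := hw
    rw [one_lap hw0]
    field_simp
  rw [tendsto_order]
  have hquot : ∀ δ : ℝ, 0 < δ → Tendsto (fun w => TG f (bmp δ) w / TG (fun _ => (1 : ℝ)) (bmp δ) w)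
      (𝓝[>] 0) (𝓝 C) ∧ ∀ᶠ w in 𝓝[>] 0, 0 < TG (fun _ => (1 : ℝ)) (bmp δ) w := by
    intro δ hδ
    have h1 := TG_cont hi hM hC (bmp_cont δ)
    have h2 := TG_cont (f := fun _ => (1 : ℝ)) (fun w hw => one_LInt hw) (M := 1)
      (fun u _ => by simp) hone (bmp_cont δ)
    have h3 := bmp_pos hδ
    rw [one_mul] at h2
    refine ⟨?_, h2.eventually (lt_mem_nhds h3)⟩
    have h4 := h1.div h2 h3.ne'
    rwa [mul_div_assoc, div_self h3.ne', mul_one] at h4
  have hbB : ∀ δ : ℝ, ∃ B : ℝ, ∀ x ∈ Icc (0 : ℝ) 1, |bmp δ x| ≤ B := by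
    intro δ
    obtain ⟨B, hB⟩ := (isCompact_Icc (a := (0 : ℝ)) (b := 1)).exists_bound_of_continuousOn
      (bmp_cont δ).continuousOn
    exact ⟨B, hB⟩
  constructor
  · intro c hc
    set ε : ℝ := (C - c) / 2 with hε
    have hε0 : 0 < ε := by rw [hε]; linarith
    obtain ⟨δ, hδ, u0, hu⟩ := hs ε hε0
    obtain ⟨h1, h2⟩ := hquot δ hδ
    obtain ⟨B, hB⟩ := hbB δ
    have h3 := h1.eventually (lt_mem_nhds (show C - ε < C by linarith))
    have h4 : Tendsto (fun U : ℝ => U⁻¹) atTop (𝓝[>] 0) := tendsto_inv_atTop_nhdsGT_zero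
    filter_upwards [h4.eventually (h3.and h2), eventually_ge_atTop (max u0 1)] with U h5 h6
    obtain ⟨h7, h8⟩ := h5
    have hU : 0 < U := lt_of_lt_of_le one_pos ((le_max_right _ _).trans h6)
    have hw : 0 < U⁻¹ := inv_pos.mpr hU
    rw [lt_div_iff₀ h8] at h7
    have h9 : TG f (bmp δ) U⁻¹ ≤ (f U + ε) * TG (fun _ => (1 : ℝ)) (bmp δ) U⁻¹ := by
      unfold TG
      rw [mul_left_comm (f U + ε)]
      refine mul_le_mul_of_nonneg_left ?_ hw.le
      rw [← integral_const_mul]
      refine setIntegral_mono_on (TG_int (bmp_cont δ).measurable hB hw (hi _ hw))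
        ((TG_int (bmp_cont δ).measurable hB hw (one_LInt hw)).const_mul _) measurableSet_Ioi
        fun u hu0 => ?_
      have hu0' : (0 : ℝ) < u := hu0
      rw [one_mul, ← mul_assoc]
      refine mul_le_mul_of_nonneg_right ?_ (Real.exp_pos _).le
      by_cases hb : bmp δ (Real.exp (-(U⁻¹ * u))) = 0
      · rw [hb, mul_zero, mul_zero]
      · obtain ⟨e1, e2⟩ := bmp_supp hδ hb
        rw [inv_mul_eq_div, lt_div_iff₀ hU, one_mul] at e1
        rw [inv_mul_eq_div, div_lt_iff₀ hU] at e2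
        exact mul_le_mul_of_nonneg_right
          (hu U u ((le_max_left _ _).trans h6) e1.le e2.le) (bmp_nonneg _ _)
    have h10 := lt_of_lt_of_le h7 h9
    have h11 := lt_of_mul_lt_mul_right h10 h8.le
    linarith
  · intro c hc
    set ε : ℝ := (c - C) / 2 with hε
    have hε0 : 0 < ε := by rw [hε]; linarith
    obtain ⟨δ, hδ, u0, hu⟩ := hs ε hε0
    obtain ⟨h1, h2⟩ := hquot δ hδ
    obtain ⟨B, hB⟩ := hbB δ
    have h3 := h1.eventually (gt_mem_nhds (show C < C + ε by linarith))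
    have h4 : Tendsto (fun U : ℝ => (U / (1 + δ))⁻¹) atTop (𝓝[>] 0) :=
      tendsto_inv_atTop_nhdsGT_zero.comp (tendsto_id.atTop_div_const (by linarith))
    filter_upwards [h4.eventually (h3.and h2), eventually_ge_atTop (max ((1 + δ) * u0) 1)]
      with U h5 h6
    obtain ⟨h7, h8⟩ := h5
    have hU : 0 < U := lt_of_lt_of_le one_pos ((le_max_right _ _).trans h6)
    have hw : 0 < (U / (1 + δ))⁻¹ := by positivity
    rw [div_lt_iff₀ h8] at h7
    have h9 : (f U - ε) * TG (fun _ => (1 : ℝ)) (bmp δ) (U / (1 + δ))⁻¹ ≤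
        TG f (bmp δ) (U / (1 + δ))⁻¹ := by
      unfold TG
      rw [mul_left_comm (f U - ε)]
      refine mul_le_mul_of_nonneg_left ?_ hw.le
      rw [← integral_const_mul]
      refine setIntegral_mono_on ((TG_int (bmp_cont δ).measurable hB hw (one_LInt hw)).const_mul _)
        (TG_int (bmp_cont δ).measurable hB hw (hi _ hw)) measurableSet_Ioi
        fun u hu0 => ?_
      have hu0' : (0 : ℝ) < u := hu0
      rw [one_mul, ← mul_assoc]
      refine mul_le_mul_of_nonneg_right ?_ (Real.exp_pos _).le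
      by_cases hb : bmp δ (Real.exp (-((U / (1 + δ))⁻¹ * u))) = 0
      · rw [hb, mul_zero, mul_zero]
      · obtain ⟨e1, e2⟩ := bmp_supp hδ hb
        have h1δ : 0 < 1 + δ := by linarith
        have e3 : (U / (1 + δ))⁻¹ * u = (1 + δ) * u / U := by field_simp
        rw [e3] at e1 e2
        rw [lt_div_iff₀ hU, one_mul] at e1
        rw [div_lt_iff₀ hU] at e2
        have e4 : u ≤ U := by
          have := lt_of_mul_lt_mul_left e2 h1δ.le
          exact this.le
        have e5 : u0 ≤ u := by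
          have e6 := (le_max_left _ _).trans h6
          have := lt_of_mul_lt_mul_left (lt_of_le_of_lt e6 e1) h1δ.le
          exact this.le
        refine mul_le_mul_of_nonneg_right ?_ (bmp_nonneg _ _)
        have := hu u U e5 e4 e1.le
        linarith
    have h10 := lt_of_le_of_lt h9 h7
    have h11 := lt_of_mul_lt_mul_right h10 h8.le
    linarith

end Pool.Agent.W263.BSD
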