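import Pool.Agent.H21.L.R_seed8.W263.BSD.Lead3
import Pool.Agent.H21.L.R_seed8.Helper923.HMertens

/-! The second order terms of the Euler product. -/

set_option autoImplicit false

namespace Pool.Agent.W263.BSD

open MeasureTheory Filter Topology Set Classical

variable {S : Set ℕ} {A : ℕ → ℝ}

/-- second order coefficients -/
noncomputable def mc (S : Set ℕ) (A : ℕ → ℝ) (p : ℕ) : ℝ := if p ∈ S then mm A p else 0

theorem EData.mc_le (E : EData S A) (p : ℕ) : |mc S A p| ≤ 1 / p := by
  unfold mc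
  split_ifs with h
  · exact E.mm_le h
  · rw [abs_zero]; positivity

theorem EData.mc_zero (E : EData S A) : mc S A 0 = 0 := by
  unfold mc
  rw [if_neg]
  intro h
  have := E.big 0 h
  omega

theorem EData.mc_summable (E : EData S A) {w : ℝ} (hw : 0 < w) :
    Summable fun n : ℕ => |mc S A n| * (n : ℝ) ^ (-w) := by
  refine Summable.of_nonneg_of_le (fun n => by positivity) (fun n => ?_)
    (Real.summable_nat_rpow.mpr (show -1 - w < -1 by linarith))
  rcases Nat.eq_zero_or_pos n with rfl | hn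
  · rw [E.mc_zero]; simp; positivity
  · have hn' : (0 : ℝ) < n := by exact_mod_cast hn
    rw [show (-1 - w : ℝ) = -1 + -w by ring, Real.rpow_add hn', Real.rpow_neg_one, ← one_div]
    exact mul_le_mul_of_nonneg_right (E.mc_le n) (by positivity)

theorem EData.mc_hasSum (E : EData S A) {w : ℝ} (hw : 0 < w) :
    HasSum (fun n : ℕ => mc S A n * (n : ℝ) ^ (-w)) (w * lap (stp (mc S A)) w) :=
  stp_hasSum E.mc_zero (fun _ hw => E.mc_summable hw) hw

theorem EData.mc_LInt (E : EData S A) {w : ℝ} (hw : 0 < w) : LInt (stp (mc S A)) w :=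
  stp_LInt E.mc_zero (fun _ hw => E.mc_summable hw) hw

theorem xp_tendsto (p : ℕ) (hp : 1 ≤ p) : Tendsto (fun w : ℝ => xp p (w : ℂ)) (𝓝[>] 0) (𝓝 1) := by
  have h1 : Continuous (fun w : ℝ => xp p (w : ℂ)) := by
    unfold xp
    have : (p : ℂ) ≠ 0 := by exact_mod_cast (show p ≠ 0 by omega)
    refine Continuous.const_cpow (by fun_prop) (Or.inl this)
  have h2 := h1.tendsto 0
  rw [Complex.ofReal_zero, xp_zero] at h2
  exact tendsto_nhdsWithin_of_tendsto_nhds h2

/-- the third order terms tend to zero -/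
theorem EData.G3 (E : EData S A) :
    Tendsto (fun w : ℝ => (GG S A w).re - w * lap (stp (mc S A)) w +
      (2 * w) * lap (stp (mc S A)) (2 * w)) (𝓝[>] 0) (𝓝 0) := by
  have hsum : Summable fun p : ℕ => 60 * (p : ℝ) ^ (-(3 / 2) : ℝ) :=
    (Real.summable_nat_rpow.mpr (by norm_num)).mul_left _
  have key : Tendsto (fun w : ℝ => ∑' p : ℕ, (gterm S A p w - mc S A p * (xp p w - xp p w ^ 2)))
      (𝓝[>] 0) (𝓝 (∑' _ : ℕ, (0 : ℂ))) := by
    refine tendsto_tsum_of_dominated_convergence hsum (fun p => ?_) ?_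
    · by_cases hp : p ∈ S
      · have h25 := E.big p hp
        have hx := xp_tendsto p (by omega)
        have h1 : Tendsto (fun w : ℝ => fac A p (xp p w)) (𝓝[>] 0) (𝓝 (fac A p 1)) := by
          have hc : Continuous (fac A p) := by unfold fac; fun_prop
          exact (hc.tendsto 1).comp hx
        have h2 : fac A p 1 ∈ Complex.slitPlane :=
          factor_slit (dl_nonneg p) (dl_le h25) (E.tt_le hp) (by simp)
        have h3 := h1.clog h2
        have h4 := (((hx.const_mul (cc A p : ℂ)).sub h3).sub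
          ((hx.sub (hx.pow 2)).const_mul (mc S A p : ℂ)))
        rw [← E.cc_eq hp] at h4
        simp only [mul_one, sub_self, one_pow, mul_zero] at h4
        refine h4.congr fun w => ?_
        unfold gterm
        rw [if_pos hp]
      · have : (fun w : ℝ => gterm S A p w - mc S A p * (xp p w - xp p w ^ 2)) = fun _ => 0 := by
          funext w
          unfold gterm mc
          rw [if_neg hp, if_neg hp]
          simp
        rw [this]
        exact tendsto_const_nhds
    · filter_upwards [self_mem_nhdsWithin] with w hw p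
      have hw0 : (0 : ℝ) < w := hw
      by_cases hp : p ∈ S
      · have h25 := E.big p hp
        have h1 := E.gterm_main hp (w := w) (by simpa using hw0.le)
        rw [dl_cube (by omega)] at h1
        unfold mc
        rw [if_pos hp]
        exact h1
      · unfold gterm mc
        rw [if_neg hp, if_neg hp]
        simp
        positivity
  rw [tsum_zero] at key
  have h5 := (Complex.continuous_re.tendsto 0).comp key
  rw [Complex.zero_re] at h5
  refine h5.congr' ?_
  filter_upwards [self_mem_nhdsWithin] with w hw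
  have hw0 : (0 : ℝ) < w := hw
  simp only [Function.comp_apply]
  have h1 := (E.gterm_summable (w := w) (by simpa using hw0)).hasSum
  have h2 := (Complex.hasSum_ofReal).mpr (E.mc_hasSum hw0)
  have h3 := (Complex.hasSum_ofReal).mpr (E.mc_hasSum (show 0 < 2 * w by linarith))
  have h4 := ((h1.sub h2).add h3).tsum_eq
  have h6 : (fun p : ℕ => gterm S A p w - ((mc S A p * (p : ℝ) ^ (-w) : ℝ) : ℂ) +
      ((mc S A p * (p : ℝ) ^ (-(2 * w)) : ℝ) : ℂ)) =
      fun p : ℕ => gterm S A p w - mc S A p * (xp p w - xp p w ^ 2) := by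
    funext p
    have e2 : ((p : ℝ) ^ (-(2 * w)) : ℝ) = ((p : ℝ) ^ (-w)) ^ 2 := by
      rw [← Real.rpow_natCast, ← Real.rpow_mul (by positivity)]
      congr 1; push_cast; ring
    rw [xp_real, e2]
    push_cast
    ring
  rw [h6] at h4
  rw [h4]
  simp only [Complex.add_re, Complex.sub_re, Complex.ofReal_re]
  rfl

/-! Mertens -/

theorem prime_inc {ε : ℝ} (hε : 0 < ε) : ∃ u0 : ℝ, 2 ≤ u0 ∧ ∀ u v : ℝ, u0 ≤ u → u ≤ v →
    ∑ p ∈ (Finset.Ioc ⌊Real.exp u⌋₊ ⌊Real.exp v⌋₊).filter Nat.Prime, (1 : ℝ) / p ≤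
      Real.log (v / u) + ε := by
  obtain ⟨C, hC0, hC⟩ := Pool.Agent.Helper923.HMertens.mertens_ratio
  refine ⟨(C + 1) / ε + 2, by have : 0 ≤ (C + 1) / ε := by positivity
                              linarith, fun u v h1 h2 => ?_⟩
  have hCe : 0 ≤ (C + 1) / ε := by positivity
  have hu2 : 2 ≤ u := by linarith
  have hu0 : 0 < u := by linarith
  have hv0 : 0 < v := by linarith
  set a := ⌊Real.exp u⌋₊ with ha
  set b := ⌊Real.exp v⌋₊ with hb
  have hexp2 : 4 ≤ Real.exp u := by
    have e1 := Real.exp_one_gt_d9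
    have e2 : Real.exp 2 ≤ Real.exp u := Real.exp_le_exp.mpr hu2
    have e3 : Real.exp 2 = Real.exp 1 * Real.exp 1 := by rw [← Real.exp_add]; norm_num
    nlinarith
  have ha1 : Real.exp u / 2 ≤ a := by
    have := Nat.sub_one_lt_floor (Real.exp u)
    linarith
  have ha2 : 2 ≤ a := by
    have : (2 : ℝ) ≤ a := by linarith
    exact_mod_cast this
  have hab : a ≤ b := Nat.floor_le_floor (Real.exp_le_exp.mpr h2)
  have hla : u - 1 ≤ Real.log a := by
    have e1 : Real.log (Real.exp u / 2) ≤ Real.log a := Real.log_le_log (by positivity) ha1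
    rw [Real.log_div (Real.exp_pos _).ne' (by norm_num), Real.log_exp] at e1
    have := Real.log_two_lt_d9
    linarith
  have hlb : Real.log b ≤ v := by
    have hb0 : (0 : ℝ) < b := by
      have : (2 : ℝ) ≤ b := by exact_mod_cast ha2.trans hab
      linarith
    rw [Real.log_le_iff_le_exp hb0]
    exact Nat.floor_le (Real.exp_pos _).le
  have hla0 : 0 < Real.log a := by linarith
  have hlb0 : 0 < Real.log b := by
    have : Real.log a ≤ Real.log b := Real.log_le_log (by exact_mod_cast (by omega : 0 < a))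
      (by exact_mod_cast hab)
    linarith
  have h3 := (abs_le.mp (hC a b ha2 hab)).2
  have h4 : Real.log (Real.log b / Real.log a) ≤ Real.log (v / u) + 1 / (u - 1) := by
    have e1 : Real.log (Real.log b / Real.log a) ≤ Real.log (v / (u - 1)) := by
      apply Real.log_le_log (by positivity)
      have : 0 < u - 1 := by linarith
      gcongr
    have e2 : Real.log (v / (u - 1)) = Real.log (v / u) + Real.log (u / (u - 1)) := by
      rw [← Real.log_mul (by positivity) (by
        have : 0 < u - 1 := by linarith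
        positivity)]
      congr 1
      have : u - 1 ≠ 0 := by linarith
      field_simp
    have e3 : Real.log (u / (u - 1)) ≤ u / (u - 1) - 1 :=
      Real.log_le_sub_one_of_pos (div_pos hu0 (by linarith))
    have e4 : u / (u - 1) - 1 = 1 / (u - 1) := by
      have : u - 1 ≠ 0 := by linarith
      field_simp
      ring
    linarith
  have h5 : C / Real.log a ≤ C / (u - 1) := by
    have : 0 < u - 1 := by linarith
    gcongr
  have h6 : C / (u - 1) + 1 / (u - 1) ≤ ε := by
    rw [← add_div, div_le_iff₀ (by linarith)]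
    have : (C + 1) / ε ≤ u - 1 := by linarith
    rw [div_le_iff₀ hε] at this
    linarith
  linarith

theorem EData.stp_inc (E : EData S A) {u v : ℝ} (h : u ≤ v) :
    |stp (mc S A) v - stp (mc S A) u| ≤
      ∑ p ∈ (Finset.Ioc ⌊Real.exp u⌋₊ ⌊Real.exp v⌋₊).filter Nat.Prime, (1 : ℝ) / p := by
  have hab : ⌊Real.exp u⌋₊ ≤ ⌊Real.exp v⌋₊ := Nat.floor_le_floor (Real.exp_le_exp.mpr h)
  have h1 : stp (mc S A) v - stp (mc S A) u =
      ∑ p ∈ Finset.Ioc ⌊Real.exp u⌋₊ ⌊Real.exp v⌋₊, mc S A p := by
    unfold stp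
    rw [Finset.range_eq_Ico, Finset.range_eq_Ico,
      ← Finset.sum_Ico_consecutive _ (Nat.zero_le _) (Nat.succ_le_succ hab), add_sub_cancel_left]
    refine Finset.sum_congr ?_ fun _ _ => rfl
    ext p
    rw [Finset.mem_Ico, Finset.mem_Ioc]
    omega
  rw [h1, Finset.sum_filter]
  refine (Finset.abs_sum_le_sum_abs _ _).trans (Finset.sum_le_sum fun p _ => ?_)
  split_ifs with hp
  · exact E.mc_le p
  · unfold mc
    rw [if_neg (fun hS => hp (E.prime p hS)), abs_zero]

theorem EData.stp_slow (E : EData S A) {ε : ℝ} (hε : 0 < ε) : ∃ u0 : ℝ, 2 ≤ u0 ∧ ∀ u v : ℝ,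
    u0 ≤ u → u ≤ v → |stp (mc S A) v - stp (mc S A) u| ≤ Real.log (v / u) + ε := by
  obtain ⟨u0, h2, h⟩ := prime_inc hε
  exact ⟨u0, h2, fun u v h1 h3 => (E.stp_inc h3).trans (h u v h1 h3)⟩

/-- the second order correction `s(u) - s(u/2)` -/
noncomputable def sc (S : Set ℕ) (A : ℕ → ℝ) (u : ℝ) : ℝ := stp (mc S A) u - stp (mc S A) (u / 2)

theorem sc_meas : Measurable (sc S A) :=
  (stp_meas _).sub ((stp_meas _).comp (measurable_id.div_const 2))

theorem EData.sc_LInt (E : EData S A) {w : ℝ} (hw : 0 < w) : LInt (sc S A) w :=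
  (E.mc_LInt hw).sub (LInt_half (E.mc_LInt (by linarith)))

theorem EData.sc_bounded (E : EData S A) : ∃ M : ℝ, ∀ u, 0 < u → |sc S A u| ≤ M := by
  obtain ⟨u0, h2, h⟩ := E.stp_slow one_pos
  set K : ℝ := ∑' n : ℕ, |mc S A n| * (n : ℝ) ^ (-(1 : ℝ)) with hK
  have hK0 : 0 ≤ K := tsum_nonneg fun n => by positivity
  have hb : ∀ u : ℝ, |stp (mc S A) u| ≤ K * Real.exp (1 * u) := fun u =>
    stp_abs E.mc_zero (E.mc_summable one_pos) zero_le_one u
  refine ⟨(Real.log 2 + 1) + 2 * (K * Real.exp (2 * u0)), fun u hu => ?_⟩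
  have hlog : 0 ≤ Real.log 2 := Real.log_nonneg (by norm_num)
  have hE := Real.exp_pos (2 * u0)
  have hKE : 0 ≤ K * Real.exp (2 * u0) := by positivity
  rcases le_or_gt (2 * u0) u with h3 | h3
  · have h4 := h (u / 2) u (by linarith) (by linarith)
    have h5 : u / (u / 2) = 2 := by field_simp
    rw [h5] at h4
    unfold sc
    linarith
  · have h4 := hb u
    have h5 := hb (u / 2)
    have h6 : Real.exp (1 * u) ≤ Real.exp (2 * u0) := Real.exp_le_exp.mpr (by linarith)
    have h7 : Real.exp (1 * (u / 2)) ≤ Real.exp (2 * u0) := Real.exp_le_exp.mpr (by linarith)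
    have h8 := mul_le_mul_of_nonneg_left h6 hK0
    have h9 := mul_le_mul_of_nonneg_left h7 hK0
    unfold sc
    refine (abs_sub _ _).trans ?_
    linarith

theorem EData.sc_slow (E : EData S A) {ε : ℝ} (hε : 0 < ε) : ∃ δ > 0, ∃ u0 : ℝ, ∀ u v : ℝ,
    u0 ≤ u → u ≤ v → v ≤ (1 + δ) * u → |sc S A v - sc S A u| ≤ ε := by
  obtain ⟨u0, h2, h⟩ := E.stp_slow (show 0 < ε / 4 by positivity)
  refine ⟨ε / 4, by positivity, 2 * u0, fun u v h3 h4 h5 => ?_⟩
  have hu : 0 < u := by linarith
  have h6 := h u v (by linarith) h4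
  have h7 := h (u / 2) (v / 2) (by linarith) (by linarith)
  have h8 : v / 2 / (u / 2) = v / u := by field_simp
  rw [h8] at h7
  have h9 : Real.log (v / u) ≤ ε / 4 := by
    have e1 : v / u ≤ 1 + ε / 4 := by rw [div_le_iff₀ hu]; exact h5
    have e2 : 0 < v / u := div_pos (by linarith) hu
    have := Real.log_le_sub_one_of_pos e2
    linarith
  have h10 : sc S A v - sc S A u = (stp (mc S A) v - stp (mc S A) u) -
      (stp (mc S A) (v / 2) - stp (mc S A) (u / 2)) := by unfold sc; ring
  rw [h10]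
  refine (abs_sub _ _).trans ?_
  linarith

end Pool.Agent.W263.BSD
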