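import Pool.Agent.H21.L.R_seed8.W263.BSD.Lead4

/-! The leading coefficient: abstract theorems. -/

set_option autoImplicit false

namespace Pool.Agent.W263.BSD

open MeasureTheory Filter Topology Set Classical

variable {S : Set ℕ} {A : ℕ → ℝ} {Φ : ℂ → ℂ} {c0 : ℝ} {r : ℕ} {c : ℝ}

/-- the normalised logarithm of the product -/
noncomputable def ff (S : Set ℕ) (A : ℕ → ℝ) (r : ℕ) (u : ℝ) : ℝ :=
  aak S A 0 u - sc S A u - r * ell u

theorem ff_meas : Measurable (ff S A r) :=
  ((aak_measurable 0).sub sc_meas).sub (ell_meas.const_mul _)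

theorem EData.ff_LInt (E : EData S A) (hconv : ∀ w > 0, LInt (aak S A 0) w) {w : ℝ} (hw : 0 < w) :
    LInt (ff S A r) w :=
  ((hconv w hw).sub (E.sc_LInt hw)).sub ((ell_LInt hw).const_mul _)

/-- **The Abel limit.** -/
theorem EData.abel_limit (E : EData S A) (D : Data 1 (aak S A 0) Φ (GG S A) c0)
    (hconv : ∀ w > 0, LInt (aak S A 0) w) (hc0 : 0 < c)
    (hc : Tendsto (fun w : ℝ => ‖Φ w‖ / w ^ r) (𝓝[>] 0) (𝓝 c)) :
    Tendsto (fun w : ℝ => w * lap (ff S A r) w) (𝓝[>] 0) (𝓝 (-Real.log c + r * Real.eulerMascheroniConstant)) := by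
  have h1 : Tendsto (fun w : ℝ => Real.log (‖Φ w‖ / w ^ r)) (𝓝[>] 0) (𝓝 (Real.log c)) :=
    hc.log hc0.ne'
  have h2 := (E.G3.sub h1).sub (ell_lap_limit.const_mul (r : ℝ))
  have h3 : (0 - Real.log c - (r : ℝ) * (-Real.eulerMascheroniConstant)) = -Real.log c + r * Real.eulerMascheroniConstant := by ring
  rw [h3] at h2
  refine h2.congr' ?_
  filter_upwards [self_mem_nhdsWithin] with w hw
  have hw0 : (0 : ℝ) < w := hw
  have h4 := D.real_eq le_rfl hconv hw0
  rw [h4, Complex.norm_real, Real.norm_of_nonneg (Real.exp_pos _).le,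
    Real.log_div (Real.exp_pos _).ne' (pow_pos hw0 _).ne', Real.log_exp, Real.log_pow, pow_one]
  have h5 : lap (ff S A r) w = lap (aak S A 0) w - lap (sc S A) w - r * lap ell w := by
    unfold ff
    rw [lap_sub ((hconv w hw0).sub (E.sc_LInt hw0)) ((ell_LInt hw0).const_mul _),
      lap_sub (hconv w hw0) (E.sc_LInt hw0), lap_const_mul]
  have h6 : lap (sc S A) w = lap (stp (mc S A)) w - lap (fun u => stp (mc S A) (u / 2)) w := by
    unfold sc
    rw [lap_sub (E.mc_LInt hw0) (LInt_half (E.mc_LInt (by linarith)))]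
  have h7 := lap_half (f := stp (mc S A)) (w := w)
  rw [h5, h6]
  linear_combination -h7

/-- Abel means are bounded by eventual upper bounds -/
theorem abel_le {f : ℝ → ℝ} (hi : ∀ w > 0, LInt f w) {C B K U : ℝ} (hU : 0 ≤ U) (_hK : 0 ≤ K)
    (hC : Tendsto (fun w : ℝ => w * lap f w) (𝓝[>] 0) (𝓝 C)) (hle : ∀ u, U < u → f u ≤ B)
    (hloc : ∀ u, 0 < u → u ≤ U → f u ≤ K) : C ≤ B := by
  have h1 : Tendsto (fun w : ℝ => B + (K + |B|) * (1 - Real.exp (-(w * U)))) (𝓝[>] 0)
      (𝓝 (B + (K + |B|) * (1 - Real.exp (-(0 * U))))) := by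
    have h2 : Continuous fun w : ℝ => B + (K + |B|) * (1 - Real.exp (-(w * U))) := by fun_prop
    exact tendsto_nhdsWithin_of_tendsto_nhds (h2.tendsto 0)
  have h3 : B + (K + |B|) * (1 - Real.exp (-(0 * U))) = B := by simp
  rw [h3] at h1
  refine le_of_tendsto_of_tendsto hC h1 ?_
  filter_upwards [self_mem_nhdsWithin] with w hw
  have hw0 : (0 : ℝ) < w := hw
  have hg1 : LInt (fun _ => B * 1) w := (one_LInt hw0).const_mul B
  have hg2 := (st_LInt U hw0).const_mul (K + |B|)
  have h4 := lap_mono (hi w hw0) (hg1.add hg2) (fun u hu => by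
    unfold st
    have := neg_abs_le B
    rcases le_or_gt u U with h | h
    · rw [if_pos h]
      have := hloc u hu h
      linarith
    · rw [if_neg (not_le.mpr h)]
      have := hle u h
      linarith)
  rw [lap_add hg1 hg2, lap_const_mul, lap_const_mul, one_lap hw0, st_lap hU hw0] at h4
  have h5 := mul_le_mul_of_nonneg_left h4 hw0.le
  have h6 : w * (B * (1 / w) + (K + |B|) * ((1 - Real.exp (-(w * U))) / w)) =
      B + (K + |B|) * (1 - Real.exp (-(w * U))) := by field_simp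
  rwa [h6] at h5

theorem ell_sqrt {u : ℝ} (hu : 2 ≤ u) : ell u ≤ 2 * √u + 1 := by
  have h1 := ell_le hu
  have h2 : Real.log u = 2 * Real.log (√u) := by
    rw [Real.log_sqrt (by linarith)]; ring
  have h3 := Real.log_le_sub_one_of_pos (Real.sqrt_pos.mpr (show 0 < u by linarith))
  linarith

theorem EData.ff_loc (E : EData S A) {M : ℝ} (hM : ∀ u, 0 < u → |sc S A u| ≤ M) {U u : ℝ}
    (hu : 0 < u) (huU : u ≤ U) : |ff S A r u| ≤ Real.exp (2 * U) + Real.exp U + M + r * ell U := by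
  have e1 := E.aak_abs 0 u
  have e2 : Real.exp u ≤ Real.exp U := Real.exp_le_exp.mpr huU
  have e3 : Real.exp (2 * u) ≤ Real.exp (2 * U) := Real.exp_le_exp.mpr (by linarith)
  have e4 : (0 : ℝ) ≤ r * ell u := mul_nonneg (by positivity) (by linarith [ell_nonneg hu.le])
  have e5 : (r : ℝ) * ell u ≤ r * ell U :=
    mul_le_mul_of_nonneg_left (ell_mono hu.le huU) (by positivity)
  have e6 := hM u hu
  unfold ff
  refine (abs_sub _ _).trans ?_
  refine (add_le_add_left (abs_sub _ _) _).trans ?_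
  rw [abs_of_nonneg e4]
  linarith

theorem EData.conv_of_ff_le (E : EData S A) (D : Data 1 (aak S A 0) Φ (GG S A) c0) {B : ℝ}
    (hle : ∀ᶠ u in atTop, ff S A r u ≤ B) : ∀ w > 0, LInt (aak S A 0) w := by
  obtain ⟨M, hM⟩ := E.sc_bounded
  refine D.conv_of_upper (E.aak_abs 0) fun δ hδ => ?_
  filter_upwards [hle, sqrt_sub_exp (B + M + r) (2 * r) hδ, eventually_ge_atTop 2] with u h1 h2 h4
  have h6 := (abs_le.mp (hM u (by linarith))).2
  have h8 : (r : ℝ) * ell u ≤ r * (2 * √u + 1) :=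
    mul_le_mul_of_nonneg_left (ell_sqrt h4) (by positivity)
  unfold ff at h1
  linarith

theorem EData.conv_of_ff_ge (E : EData S A) (D : Data 1 (aak S A 0) Φ (GG S A) c0)
    (hne : ∀ w : ℝ, 0 < w → Φ w ≠ 0) {B : ℝ}
    (hle : ∀ᶠ u in atTop, B ≤ ff S A r u) : ∀ w > 0, LInt (aak S A 0) w := by
  obtain ⟨M, hM⟩ := E.sc_bounded
  refine D.conv_of_lower (E.aak_abs 0) hne fun δ hδ => ?_
  filter_upwards [hle, sqrt_sub_exp (-B + M) 0 hδ, eventually_ge_atTop 2] with u h1 h2 h4
  have h6 := (abs_le.mp (hM u (by linarith))).1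
  have h8 : 0 ≤ (r : ℝ) * ell u := mul_nonneg (by positivity)
    (by linarith [ell_nonneg (show 0 ≤ u by linarith)])
  unfold ff at h1
  linarith

/-- **The upper limit is at least the constant.** -/
theorem EData.bracket_upper (E : EData S A) (D : Data 1 (aak S A 0) Φ (GG S A) c0) (hc0 : 0 < c)
    (hc : Tendsto (fun w : ℝ => ‖Φ w‖ / w ^ r) (𝓝[>] 0) (𝓝 c)) {ε : ℝ} (hε : 0 < ε) :
    ∃ᶠ u in atTop, -Real.log c + r * Real.eulerMascheroniConstant - ε < ff S A r u := by
  by_contra hcon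
  rw [not_frequently] at hcon
  have hle : ∀ᶠ u in atTop, ff S A r u ≤ -Real.log c + r * Real.eulerMascheroniConstant - ε :=
    hcon.mono fun u hu => not_lt.mp hu
  have hconv := E.conv_of_ff_le D hle
  obtain ⟨M, hM⟩ := E.sc_bounded
  obtain ⟨U, hU⟩ := eventually_atTop.mp hle
  have hM0 : 0 ≤ M := (abs_nonneg _).trans (hM 1 one_pos)
  have hV : 0 ≤ max U 0 := le_max_right _ _
  have hell := ell_nonneg hV
  have h1 := abel_le (fun w hw => E.ff_LInt (r := r) hconv hw) hV
    (show 0 ≤ Real.exp (2 * max U 0) + Real.exp (max U 0) + M + r * ell (max U 0) by positivity)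
    (E.abel_limit D hconv hc0 hc) (fun u hu => hU u ((le_max_left _ _).trans hu.le))
    (fun u hu huU => (abs_le.mp (E.ff_loc hM hu huU)).2)
  linarith

theorem lap_neg' {f : ℝ → ℝ} {w : ℝ} : lap (fun u => -f u) w = -lap f w := by
  have := lap_const_mul (f := f) (w := w) (-1)
  simp only [neg_mul, one_mul] at this
  exact this

/-- **The lower limit is at most the constant,** if there are no positive zeros. -/
theorem EData.bracket_lower (E : EData S A) (D : Data 1 (aak S A 0) Φ (GG S A) c0) (hc0 : 0 < c)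
    (hne : ∀ w : ℝ, 0 < w → Φ w ≠ 0)
    (hc : Tendsto (fun w : ℝ => ‖Φ w‖ / w ^ r) (𝓝[>] 0) (𝓝 c)) {ε : ℝ} (hε : 0 < ε) :
    ∃ᶠ u in atTop, ff S A r u < -Real.log c + r * Real.eulerMascheroniConstant + ε := by
  by_contra hcon
  rw [not_frequently] at hcon
  have hle : ∀ᶠ u in atTop, -Real.log c + r * Real.eulerMascheroniConstant + ε ≤ ff S A r u :=
    hcon.mono fun u hu => not_lt.mp hu
  have hconv := E.conv_of_ff_ge D hne hle
  obtain ⟨M, hM⟩ := E.sc_bounded
  obtain ⟨U, hU⟩ := eventually_atTop.mp hle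
  have hM0 : 0 ≤ M := (abs_nonneg _).trans (hM 1 one_pos)
  have hV : 0 ≤ max U 0 := le_max_right _ _
  have hell := ell_nonneg hV
  have hlim := (E.abel_limit D hconv hc0 hc).neg
  have h1 := abel_le (f := fun u => -ff S A r u) (fun w hw => (E.ff_LInt (r := r) hconv hw).neg) hV
    (show 0 ≤ Real.exp (2 * max U 0) + Real.exp (max U 0) + M + r * ell (max U 0) by positivity)
    (C := -(-Real.log c + r * Real.eulerMascheroniConstant)) (B := -(-Real.log c + r * Real.eulerMascheroniConstant + ε))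
    (hlim.congr fun w => by rw [lap_neg']; ring)
    (fun u hu => neg_le_neg (hU u ((le_max_left _ _).trans hu.le)))
    (fun u hu huU => by
      have := (abs_le.mp (E.ff_loc (r := r) hM hu huU)).1
      linarith)
  linarith

/-- from small ratios to doubling -/
theorem doubling_of_slow {a : ℝ → ℝ}
    (h : ∀ ε > 0, ∃ δ > 0, ∃ u0 : ℝ, ∀ u v, u0 ≤ u → u ≤ v → v ≤ (1 + δ) * u → a v ≤ a u + ε) :
    ∃ K u0 : ℝ, 0 ≤ K ∧ 1 ≤ u0 ∧ ∀ u v, u0 ≤ u → u ≤ v → v ≤ 2 * u → a v ≤ a u + K := by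
  obtain ⟨δ, hδ, u0, hu⟩ := h 1 one_pos
  obtain ⟨n, hn⟩ := one_lt_pow_iff_of_nonneg (show (0 : ℝ) ≤ 1 + δ by linarith) (n := 1) one_ne_zero
    |>.mpr (by linarith) |> fun h' => pow_unbounded_of_one_lt 2 (show 1 < 1 + δ by linarith)
  have key : ∀ n : ℕ, ∀ u v, max u0 1 ≤ u → u ≤ v → v ≤ (1 + δ) ^ n * u → a v ≤ a u + n := by
    intro n
    induction n with
    | zero =>
      intro u v _ h2 h3
      have : v = u := le_antisymm (by simpa using h3) h2
      rw [this]; simp
    | succ n ih =>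
      intro u v h1 h2 h3
      have hu1 : 1 ≤ u := (le_max_right _ _).trans h1
      have hu0' : u0 ≤ u := (le_max_left _ _).trans h1
      rcases le_total v ((1 + δ) * u) with h4 | h4
      · have := hu u v hu0' h2 h4
        push_cast
        have : (0 : ℝ) ≤ n := Nat.cast_nonneg n
        linarith
      · have h5 : u ≤ (1 + δ) * u := by nlinarith
        have e1 := ih ((1 + δ) * u) v (h1.trans h5) h4 (by rw [pow_succ] at h3; linarith)
        have e2 := hu u ((1 + δ) * u) hu0' h5 le_rfl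
        push_cast
        linarith
  refine ⟨n, max u0 1, Nat.cast_nonneg n, le_max_right _ _, fun u v h1 h2 h3 => ?_⟩
  refine key n u v h1 h2 (h3.trans ?_)
  have : 1 ≤ u := (le_max_right _ _).trans h1
  exact mul_le_mul_of_nonneg_right hn.le (by linarith)

theorem ell_slow {δ u v : ℝ} (hδ : 0 < δ) (hu : 0 < u) (h1 : u ≤ v) (h : v ≤ (1 + δ) * u) :
    ell v ≤ ell u + δ := by
  unfold ell
  have h2 := Real.exp_pos 1
  have h3 : Real.log (v + Real.exp 1) ≤ Real.log ((1 + δ) * (u + Real.exp 1)) := by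
    apply Real.log_le_log (by linarith)
    nlinarith
  rw [Real.log_mul (by positivity) (by positivity)] at h3
  have h4 := Real.log_le_sub_one_of_pos (show 0 < 1 + δ by linarith)
  linarith

/-- **Pointwise asymptotics from upper slow variation.** -/
theorem EData.lead_upper (E : EData S A) (D : Data 1 (aak S A 0) Φ (GG S A) c0)
    (hr : OrdZero Φ r) (hc0 : 0 < c)
    (hc : Tendsto (fun w : ℝ => ‖Φ w‖ / w ^ r) (𝓝[>] 0) (𝓝 c))
    (h : ∀ ε > 0, ∃ δ > 0, ∃ u0 : ℝ, ∀ u v, u0 ≤ u → u ≤ v → v ≤ (1 + δ) * u →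
      aak S A 0 v ≤ aak S A 0 u + ε) :
    Tendsto (ff S A r) atTop (𝓝 (-Real.log c + r * Real.eulerMascheroniConstant)) := by
  obtain ⟨K, u0, hK, hu0, hd⟩ := doubling_of_slow h
  obtain ⟨hconv, M, hM⟩ := D.order_of_upper (E.aak_abs 0) E.GG_bound hr hK hu0 hd
  obtain ⟨M', hM'⟩ := E.sc_bounded
  refine tauber_limit ff_meas (fun w hw => E.ff_LInt hconv hw) (M := M + M') (fun u hu => ?_)
    (E.abel_limit D hconv hc0 hc) ?_
  · have h1 := hM u hu
    have h2 := hM' u hu
    have h3 : ff S A r u = (aak S A 0 u - r * ell u) - sc S A u := by unfold ff; ring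
    rw [h3]
    exact (abs_sub _ _).trans (add_le_add h1 h2)
  · intro ε hε
    obtain ⟨δ1, hδ1, u1, h1⟩ := h (ε / 2) (half_pos hε)
    obtain ⟨δ2, hδ2, u2, h2⟩ := E.sc_slow (half_pos hε)
    refine ⟨min δ1 δ2, lt_min hδ1 hδ2, max 1 (max u1 u2), fun u v h3 h4 h5 => ?_⟩
    have hu1 : 1 ≤ u := (le_max_left _ _).trans h3
    have hu0 : 0 < u := by linarith
    have e1 := h1 u v (((le_max_left _ _).trans (le_max_right _ _)).trans h3) h4
      (h5.trans (mul_le_mul_of_nonneg_right (by linarith [min_le_left δ1 δ2]) hu0.le))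
    have e2 := h2 u v (((le_max_right _ _).trans (le_max_right _ _)).trans h3) h4
      (h5.trans (mul_le_mul_of_nonneg_right (by linarith [min_le_right δ1 δ2]) hu0.le))
    have e3 := (abs_le.mp e2).1
    have e4 : (r : ℝ) * ell u ≤ r * ell v :=
      mul_le_mul_of_nonneg_left (ell_mono hu0.le h4) (by positivity)
    unfold ff
    linarith

/-- **Pointwise asymptotics from lower slow variation,** without positive zeros. -/
theorem EData.lead_lower (E : EData S A) (D : Data 1 (aak S A 0) Φ (GG S A) c0)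
    (hr : OrdZero Φ r) (hc0 : 0 < c)
    (hne : ∀ w : ℝ, 0 < w → Φ w ≠ 0)
    (hc : Tendsto (fun w : ℝ => ‖Φ w‖ / w ^ r) (𝓝[>] 0) (𝓝 c))
    (h : ∀ ε > 0, ∃ δ > 0, ∃ u0 : ℝ, ∀ u v, u0 ≤ u → u ≤ v → v ≤ (1 + δ) * u →
      aak S A 0 u - ε ≤ aak S A 0 v) :
    Tendsto (ff S A r) atTop (𝓝 (-Real.log c + r * Real.eulerMascheroniConstant)) := by
  obtain ⟨K, u0, hK, hu0, hd⟩ := doubling_of_slow (a := fun u => -aak S A 0 u) (fun ε hε => by
    obtain ⟨δ, hδ, u0, h1⟩ := h ε hε
    exact ⟨δ, hδ, u0, fun u v h2 h3 h4 => by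
      have := h1 u v h2 h3 h4
      linarith⟩)
  obtain ⟨hconv, M, hM⟩ := D.order_of_lower (E.aak_abs 0) E.GG_bound hr hne hK hu0
    (fun u v h1 h2 h3 => by
      have := hd u v h1 h2 h3
      linarith)
  obtain ⟨M', hM'⟩ := E.sc_bounded
  have hmain : Tendsto (fun u => -ff S A r u) atTop (𝓝 (-(-Real.log c + r * Real.eulerMascheroniConstant))) := by
    refine tauber_limit (f := fun u => -ff S A r u) ff_meas.neg
      (fun w hw => (E.ff_LInt hconv hw).neg) (M := M + M')
      (fun u hu => ?_) ((E.abel_limit D hconv hc0 hc).neg.congr fun w => by rw [lap_neg']; ring) ?_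
    · have h1 := hM u hu
      have h2 := hM' u hu
      have h3 : ff S A r u = (aak S A 0 u - r * ell u) - sc S A u := by unfold ff; ring
      rw [abs_neg, h3]
      exact (abs_sub _ _).trans (add_le_add h1 h2)
    · intro ε hε
      have hr0 : (0 : ℝ) < r + 1 := by positivity
      obtain ⟨δ1, hδ1, u1, h1⟩ := h (ε / 3) (by positivity)
      obtain ⟨δ2, hδ2, u2, h2⟩ := E.sc_slow (show 0 < ε / 3 by positivity)
      have hδ3 : 0 < ε / (3 * (r + 1)) := by positivity
      refine ⟨min (min δ1 δ2) (ε / (3 * (r + 1))), lt_min (lt_min hδ1 hδ2) hδ3,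
        max 1 (max u1 u2), fun u v h3 h4 h5 => ?_⟩
      have hu1 : 1 ≤ u := (le_max_left _ _).trans h3
      have hu0 : 0 < u := by linarith
      have m1 : min (min δ1 δ2) (ε / (3 * (r + 1))) ≤ δ1 := (min_le_left _ _).trans (min_le_left _ _)
      have m2 : min (min δ1 δ2) (ε / (3 * (r + 1))) ≤ δ2 := (min_le_left _ _).trans (min_le_right _ _)
      have m3 : min (min δ1 δ2) (ε / (3 * (r + 1))) ≤ ε / (3 * (r + 1)) := min_le_right _ _
      have e1 := h1 u v (((le_max_left _ _).trans (le_max_right _ _)).trans h3) h4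
        (h5.trans (mul_le_mul_of_nonneg_right (by linarith) hu0.le))
      have e2 := h2 u v (((le_max_right _ _).trans (le_max_right _ _)).trans h3) h4
        (h5.trans (mul_le_mul_of_nonneg_right (by linarith) hu0.le))
      have e3 := (abs_le.mp e2).2
      have e4 := ell_slow hδ3 hu0 h4
        (h5.trans (mul_le_mul_of_nonneg_right (by linarith) hu0.le))
      have e5 : (r : ℝ) * ell v ≤ r * (ell u + ε / (3 * (r + 1))) :=
        mul_le_mul_of_nonneg_left e4 (by positivity)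
      have e6 : (r : ℝ) * (ε / (3 * (r + 1))) ≤ ε / 3 := by
        rw [mul_div_assoc', div_le_div_iff₀ (by positivity) (by positivity)]
        nlinarith
      unfold ff
      linarith
  have := hmain.neg
  simpa using this

end Pool.Agent.W263.BSD
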