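import Pool.Agent.H21.L.R_seed8.W263.BSD.Order
import Pool.Agent.H21.L.R_seed8.W263.BSD.Final

/-! One-sided doubling of the Birch and Swinnerton-Dyer product. -/

set_option autoImplicit false

namespace Pool.Agent.W263.BSD

open MeasureTheory Filter Topology Set Classical

/-- The original Birch and Swinnerton-Dyer product `P(x) = ∏_{p ≤ x, p ∤ 2Δ} (N_p + 1)/p`. -/
noncomputable def bsdProduct (a b : ℤ) (x : ℝ) : ℝ :=
  ∏ p ∈ (Finset.range (⌊x⌋₊ + 1)).filter (GoodPrime a b), (((pointCount a b p : ℝ) + 1) / p)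

variable {a b : ℤ}

theorem bsdProduct_pos (x : ℝ) : 0 < bsdProduct a b x := by
  unfold bsdProduct
  refine Finset.prod_pos fun p hp => ?_
  have hp1 : 0 < (p : ℝ) := by exact_mod_cast (Finset.mem_filter.mp hp).2.1.pos
  positivity

theorem log_bsdProduct (x : ℝ) : Real.log (bsdProduct a b x) = rieszMean a b 0 x := by
  unfold bsdProduct rieszMean
  rw [Real.log_prod]
  · simp only [pow_zero, one_mul]
  · intro p hp
    have hp1 : 0 < (p : ℝ) := by exact_mod_cast (Finset.mem_filter.mp hp).2.1.pos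
    positivity

theorem pk_zero (u : ℝ) : pk 0 u = 1 := by unfold pk; simp

/-- `log P(e^u)` and `a(u)` differ by a bounded amount -/
theorem log_approx (a b : ℤ) : ∃ B : ℝ, 0 ≤ B ∧ ∀ u : ℝ, 0 < u →
    |Real.log (bsdProduct a b (Real.exp u)) - aak (SS a b) (Ap a b) 0 u| ≤ B := by
  obtain ⟨B, hB0, hB⟩ := riesz_approx a b
  refine ⟨B, hB0, fun u hu => ?_⟩
  have := hB 0 u hu
  rw [pk_zero, mul_one, mul_one] at this
  rwa [log_bsdProduct]

/-- exact order in terms of `u = log x` implies exact order of `P` -/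
theorem order_transfer {r : ℕ} {M : ℝ}
    (h : ∀ u, 0 < u → |aak (SS a b) (Ap a b) 0 u - r * ell u| ≤ M) :
    ∃ c C : ℝ, 0 < c ∧ ∀ᶠ x : ℝ in atTop, c * (Real.log x) ^ r ≤ bsdProduct a b x ∧
      bsdProduct a b x ≤ C * (Real.log x) ^ r := by
  obtain ⟨B, hB0, hB⟩ := log_approx a b
  refine ⟨Real.exp (-(M + B + r)), Real.exp (M + B + r), Real.exp_pos _, ?_⟩
  filter_upwards [eventually_ge_atTop (Real.exp 2)] with x hx
  have hx0 : 0 < x := lt_of_lt_of_le (Real.exp_pos 2) hx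
  set u := Real.log x with hu
  have hu2 : 2 ≤ u := by rw [hu, Real.le_log_iff_exp_le hx0]; exact hx
  have hu0 : 0 < u := by linarith
  have hxu : x = Real.exp u := by rw [hu, Real.exp_log hx0]
  have h1 := abs_le.mp (hB u hu0)
  have h2 := abs_le.mp (h u hu0)
  rw [← hxu] at h1
  have h3 := log_le_ell hu0
  have h4 := ell_le hu2
  have h3' : (r : ℝ) * Real.log u ≤ r * ell u := mul_le_mul_of_nonneg_left h3 (by positivity)
  have h4' : (r : ℝ) * ell u ≤ r * (Real.log u + 1) := mul_le_mul_of_nonneg_left h4 (by positivity)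
  have h5 : bsdProduct a b x = Real.exp (Real.log (bsdProduct a b x)) :=
    (Real.exp_log (bsdProduct_pos x)).symm
  have h6 : u ^ r = Real.exp (r * Real.log u) := by
    rw [mul_comm, Real.exp_mul, Real.exp_log hu0, Real.rpow_natCast]
  rw [h5, h6, ← Real.exp_add, ← Real.exp_add, Real.exp_le_exp, Real.exp_le_exp]
  constructor <;> linarith

/-- doubling of `P` in terms of `u` -/
theorem doubling_transfer {K : ℝ}
    (h : ∀ᶠ x : ℝ in atTop, ∀ y, x ≤ y → y ≤ x ^ 2 → bsdProduct a b y ≤ K * bsdProduct a b x) :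
    ∃ K' u0 : ℝ, 0 ≤ K' ∧ 1 ≤ u0 ∧ ∀ u v, u0 ≤ u → u ≤ v → v ≤ 2 * u →
      aak (SS a b) (Ap a b) 0 v ≤ aak (SS a b) (Ap a b) 0 u + K' := by
  obtain ⟨B, hB0, hB⟩ := log_approx a b
  obtain ⟨X, hX⟩ := eventually_atTop.mp h
  set X' := max X (Real.exp 1) with hX'
  have hX0 : 0 < X' := lt_of_lt_of_le (Real.exp_pos 1) (le_max_right _ _)
  refine ⟨|Real.log K| + 2 * B, Real.log X', by positivity, ?_, ?_⟩
  · rw [Real.le_log_iff_exp_le hX0]; exact le_max_right _ _
  intro u v h1 h2 h3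
  have hu1 : 1 ≤ u := by
    have : 1 ≤ Real.log X' := by rw [Real.le_log_iff_exp_le hX0]; exact le_max_right _ _
    linarith
  have h4 : X' ≤ Real.exp u := by rwa [← Real.log_le_iff_le_exp hX0]
  have h5 := hX (Real.exp u) ((le_max_left _ _).trans h4) (Real.exp v) (Real.exp_le_exp.mpr h2)
    (by rw [← Real.exp_nat_mul]; exact Real.exp_le_exp.mpr (by push_cast; linarith))
  have hKpos : 0 < K := by
    by_contra hneg
    push Not at hneg
    have := mul_nonpos_of_nonpos_of_nonneg hneg (bsdProduct_pos (a := a) (b := b) (Real.exp u)).le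
    linarith [bsdProduct_pos (a := a) (b := b) (Real.exp v)]
  have h6 := Real.log_le_log (bsdProduct_pos _) h5
  rw [Real.log_mul hKpos.ne' (bsdProduct_pos _).ne'] at h6
  have h7 := (abs_le.mp (hB u (by linarith))).2
  have h8 := (abs_le.mp (hB v (by linarith))).1
  have := le_abs_self (Real.log K)
  linarith

theorem doubling_transfer_lower {K : ℝ}
    (h : ∀ᶠ x : ℝ in atTop, ∀ y, x ≤ y → y ≤ x ^ 2 → bsdProduct a b x ≤ K * bsdProduct a b y) :
    ∃ K' u0 : ℝ, 0 ≤ K' ∧ 1 ≤ u0 ∧ ∀ u v, u0 ≤ u → u ≤ v → v ≤ 2 * u →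
      aak (SS a b) (Ap a b) 0 u - K' ≤ aak (SS a b) (Ap a b) 0 v := by
  obtain ⟨B, hB0, hB⟩ := log_approx a b
  obtain ⟨X, hX⟩ := eventually_atTop.mp h
  set X' := max X (Real.exp 1) with hX'
  have hX0 : 0 < X' := lt_of_lt_of_le (Real.exp_pos 1) (le_max_right _ _)
  refine ⟨|Real.log K| + 2 * B, Real.log X', by positivity, ?_, ?_⟩
  · rw [Real.le_log_iff_exp_le hX0]; exact le_max_right _ _
  intro u v h1 h2 h3
  have hu1 : 1 ≤ u := by
    have : 1 ≤ Real.log X' := by rw [Real.le_log_iff_exp_le hX0]; exact le_max_right _ _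
    linarith
  have h4 : X' ≤ Real.exp u := by rwa [← Real.log_le_iff_le_exp hX0]
  have h5 := hX (Real.exp u) ((le_max_left _ _).trans h4) (Real.exp v) (Real.exp_le_exp.mpr h2)
    (by rw [← Real.exp_nat_mul]; exact Real.exp_le_exp.mpr (by push_cast; linarith))
  have hKpos : 0 < K := by
    by_contra hneg
    push Not at hneg
    have := mul_nonpos_of_nonpos_of_nonneg hneg (bsdProduct_pos (a := a) (b := b) (Real.exp v)).le
    linarith [bsdProduct_pos (a := a) (b := b) (Real.exp u)]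
  have h6 := Real.log_le_log (bsdProduct_pos _) h5
  rw [Real.log_mul hKpos.ne' (bsdProduct_pos _).ne'] at h6
  have h7 := (abs_le.mp (hB u (by linarith))).1
  have h8 := (abs_le.mp (hB v (by linarith))).2
  have := le_abs_self (Real.log K)
  linarith

theorem order_of_upper_doubling {F : ℂ → ℂ} (hF : IsLSeries a b F) {r : ℕ}
    (hr : analyticOrderAt F 1 = r) {K : ℝ}
    (h : ∀ᶠ x : ℝ in atTop, ∀ y, x ≤ y → y ≤ x ^ 2 → bsdProduct a b y ≤ K * bsdProduct a b x) :
    ∃ c C : ℝ, 0 < c ∧ ∀ᶠ x : ℝ in atTop, c * (Real.log x) ^ r ≤ bsdProduct a b x ∧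
      bsdProduct a b x ≤ C * (Real.log x) ^ r := by
  obtain ⟨K', u0, hK', hu0, h1⟩ := doubling_transfer h
  obtain ⟨_, M, hM⟩ := (data 0 hF).order_of_upper (hloc a b 0) (eData a b).GG_bound
    (ordZero hF hr) hK' hu0 h1
  exact order_transfer hM

theorem phi_ne {F : ℂ → ℂ} (hne : ∀ s : ℝ, 1 < s → F s ≠ 0) (w : ℝ) (hw : 0 < w) :
    PhiF a b F w ≠ 0 := by
  unfold PhiF
  refine mul_ne_zero ?_ (small_ne_zero_real hw.le)
  have := hne (1 + w) (by linarith)
  push_cast at this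
  exact this

theorem order_of_lower_doubling {F : ℂ → ℂ} (hF : IsLSeries a b F) {r : ℕ}
    (hr : analyticOrderAt F 1 = r) (hne : ∀ s : ℝ, 1 < s → F s ≠ 0) {K : ℝ}
    (h : ∀ᶠ x : ℝ in atTop, ∀ y, x ≤ y → y ≤ x ^ 2 → bsdProduct a b x ≤ K * bsdProduct a b y) :
    ∃ c C : ℝ, 0 < c ∧ ∀ᶠ x : ℝ in atTop, c * (Real.log x) ^ r ≤ bsdProduct a b x ∧
      bsdProduct a b x ≤ C * (Real.log x) ^ r := by
  obtain ⟨K', u0, hK', hu0, h1⟩ := doubling_transfer_lower h
  obtain ⟨_, M, hM⟩ := (data 0 hF).order_of_lower (hloc a b 0) (eData a b).GG_bound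
    (ordZero hF hr) (phi_ne hne) hK' hu0 h1
  exact order_transfer hM

/-- the exact order implies that there are no zeros -/
theorem no_zeros_of_order {F : ℂ → ℂ} (hF : IsLSeries a b F) {r : ℕ} {C : ℝ}
    (h : ∀ᶠ x : ℝ in atTop, bsdProduct a b x ≤ C * (Real.log x) ^ r) {s : ℂ} (hs : 1 < s.re) :
    F s ≠ 0 := by
  refine no_zeros_of_loglog hF 0 (K := |Real.log C| + r) ?_ hs
  filter_upwards [h, eventually_ge_atTop (Real.exp (Real.exp 1))] with x h1 h2
  have hx0 : 0 < x := lt_of_lt_of_le (Real.exp_pos _) h2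
  have hl : Real.exp 1 ≤ Real.log x := by rwa [Real.le_log_iff_exp_le hx0]
  have hl0 : 0 < Real.log x := lt_of_lt_of_le (Real.exp_pos 1) hl
  have hll : 1 ≤ Real.log (Real.log x) := by rwa [Real.le_log_iff_exp_le hl0]
  have hC : 0 < C := by
    by_contra hneg
    push Not at hneg
    have := mul_nonpos_of_nonpos_of_nonneg hneg (pow_pos hl0 r).le
    linarith [bsdProduct_pos (a := a) (b := b) x]
  rw [← log_bsdProduct]
  have h3 := Real.log_le_log (bsdProduct_pos _) h1
  rw [Real.log_mul hC.ne' (pow_pos hl0 r).ne', Real.log_pow] at h3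
  have h4 := le_abs_self (Real.log C)
  nlinarith [abs_nonneg (Real.log C)]

/-- **The one-sided criterion for the exact order of magnitude.** -/
theorem order_tfae {F : ℂ → ℂ} (hF : IsLSeries a b F) {r : ℕ} (hr : analyticOrderAt F 1 = r) :
    List.TFAE [
      ∃ c C : ℝ, 0 < c ∧ ∀ᶠ x : ℝ in atTop, c * (Real.log x) ^ r ≤ bsdProduct a b x ∧
        bsdProduct a b x ≤ C * (Real.log x) ^ r,
      ∃ K : ℝ, ∀ᶠ x : ℝ in atTop, ∀ y, x ≤ y → y ≤ x ^ 2 →
        bsdProduct a b y ≤ K * bsdProduct a b x,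
      (∀ s : ℝ, 1 < s → F s ≠ 0) ∧ ∃ K : ℝ, ∀ᶠ x : ℝ in atTop, ∀ y, x ≤ y → y ≤ x ^ 2 →
        bsdProduct a b x ≤ K * bsdProduct a b y] := by
  tfae_have 1 → 2 := by
    rintro ⟨c, C, hc, h⟩
    obtain ⟨X, hX⟩ := eventually_atTop.mp h
    refine ⟨|C| * 2 ^ r / c, ?_⟩
    filter_upwards [eventually_ge_atTop (max X (Real.exp 1))] with x hx y h1 h2
    have hx1 : Real.exp 1 ≤ x := (le_max_right _ _).trans hx
    have hx0 : 0 < x := lt_of_lt_of_le (Real.exp_pos 1) hx1
    have hl : 1 ≤ Real.log x := by rwa [Real.le_log_iff_exp_le hx0]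
    have e1 := (hX x ((le_max_left _ _).trans hx)).1
    have e2 := (hX y (((le_max_left _ _).trans hx).trans h1)).2
    have hly : Real.log y ≤ 2 * Real.log x := by
      have := Real.log_le_log (by linarith) h2
      rwa [Real.log_pow] at this
    have hly0 : 0 ≤ Real.log y := Real.log_nonneg (by
      have := Real.one_le_exp (zero_le_one : (0 : ℝ) ≤ 1)
      linarith)
    calc bsdProduct a b y ≤ C * Real.log y ^ r := e2
      _ ≤ |C| * (2 * Real.log x) ^ r := by
          refine mul_le_mul (le_abs_self C) (pow_le_pow_left₀ hly0 hly r) (by positivity)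
            (abs_nonneg _)
      _ = |C| * 2 ^ r / c * (c * Real.log x ^ r) := by rw [mul_pow]; field_simp
      _ ≤ |C| * 2 ^ r / c * bsdProduct a b x := by gcongr
  tfae_have 2 → 1 := by
    rintro ⟨K, h⟩
    exact order_of_upper_doubling hF hr h
  tfae_have 1 → 3 := by
    rintro ⟨c, C, hc, h⟩
    refine ⟨fun s hs => no_zeros_of_order hF (h.mono fun x hx => hx.2) (by simpa using hs),
      |C| / c, ?_⟩
    obtain ⟨X, hX⟩ := eventually_atTop.mp h
    filter_upwards [eventually_ge_atTop (max X (Real.exp 1))] with x hx y h1 h2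
    have hx1 : Real.exp 1 ≤ x := (le_max_right _ _).trans hx
    have hx0 : 0 < x := lt_of_lt_of_le (Real.exp_pos 1) hx1
    have hl : 1 ≤ Real.log x := by rwa [Real.le_log_iff_exp_le hx0]
    have e1 := (hX x ((le_max_left _ _).trans hx)).2
    have e2 := (hX y (((le_max_left _ _).trans hx).trans h1)).1
    have hly : Real.log x ≤ Real.log y := Real.log_le_log hx0 h1
    calc bsdProduct a b x ≤ C * Real.log x ^ r := e1
      _ ≤ |C| * Real.log y ^ r := by
          refine mul_le_mul (le_abs_self C) (pow_le_pow_left₀ (by linarith) hly r) (by positivity)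
            (abs_nonneg _)
      _ = |C| / c * (c * Real.log y ^ r) := by field_simp
      _ ≤ |C| / c * bsdProduct a b y := by gcongr
  tfae_have 3 → 1 := by
    rintro ⟨hne, K, h⟩
    exact order_of_lower_doubling hF hr hne h
  tfae_finish

end Pool.Agent.W263.BSD
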