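import Pool.Agent.H21.L.R_seed8.W263.BSD.Lead5
import Pool.Agent.H21.L.R_seed8.W263.BSD.OrderFinal

/-! The leading coefficient and the Birch and Swinnerton-Dyer product. -/

set_option autoImplicit false

namespace Pool.Agent.W263.BSD

open MeasureTheory Filter Topology Set Classical

/-- The product `P(x)` with the second order correction
`P*(x) = P(x) exp (∑_{√x < p ≤ x} (a_p² - 2p)/(2p²))`, `a_p = p - N_p`, good primes only. -/
noncomputable def bsdStar (a b : ℤ) (x : ℝ) : ℝ :=
  bsdProduct a b x * Real.exp (∑ p ∈ (Finset.range (⌊x⌋₊ + 1)).filter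
    (fun p => GoodPrime a b p ∧ √x < p),
      (((p : ℝ) - pointCount a b p) ^ 2 - 2 * p) / (2 * (p : ℝ) ^ 2))

/-- absolute value of the leading coefficient at `1` -/
noncomputable def leadAbs (F : ℂ → ℂ) (r : ℕ) : ℝ := ‖iteratedDeriv r F 1‖ / (r.factorial : ℝ)

theorem lead_limit {F : ℂ → ℂ} (hF : Differentiable ℂ F) {r : ℕ} (hr : analyticOrderAt F 1 = r) :
    0 < leadAbs F r ∧
      Tendsto (fun w : ℝ => ‖F (1 + w)‖ / w ^ r) (𝓝[>] 0) (𝓝 (leadAbs F r)) := by
  have hFa : AnalyticAt ℂ F 1 := hF.analyticAt 1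
  have h1 := (natCast_le_analyticOrderAt_iff_iteratedDeriv_eq_zero hFa (n := r)).mp hr.ge
  have h2 : iteratedDeriv r F 1 ≠ 0 := by
    intro h0
    have h3 : ((r + 1 : ℕ) : ℕ∞) ≤ analyticOrderAt F 1 := by
      rw [natCast_le_analyticOrderAt_iff_iteratedDeriv_eq_zero hFa]
      intro i hi
      rcases Nat.lt_succ_iff_lt_or_eq.mp hi with h | h
      · exact h1 i h
      · rw [h]; exact h0
    rw [hr] at h3
    have : r + 1 ≤ r := by exact_mod_cast h3
    omega
  refine ⟨div_pos (norm_pos_iff.mpr h2) (by positivity), ?_⟩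
  have hfa : AnalyticAt ℂ (fun w : ℂ => F (1 + w)) 0 := by
    have : Differentiable ℂ (fun w : ℂ => F (1 + w)) := hF.comp (by fun_prop)
    exact this.analyticAt 0
  obtain ⟨G, hG, hG'⟩ := hfa.exists_eq_sum_add_pow_mul (r + 1)
  have h4 : ∀ i, iteratedDeriv i (fun w : ℂ => F (1 + w)) 0 = iteratedDeriv i F 1 := by
    intro i
    rw [iteratedDeriv_comp_const_add]
    simp
  have h5 : ∀ w : ℂ, F (1 + w) = w ^ r * (iteratedDeriv r F 1 / (r.factorial : ℂ) + w * G w) := by
    intro w
    rw [hG' w, Finset.sum_range_succ, Finset.sum_eq_zero, h4, zero_add, smul_eq_mul, smul_eq_mul]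
    · ring
    · intro i hi
      rw [h4, h1 i (Finset.mem_range.mp hi), smul_zero]
  have h6 : Tendsto (fun w : ℝ => (w : ℂ)) (𝓝[>] 0) (𝓝 0) := by
    have := Complex.continuous_ofReal.tendsto 0
    rw [Complex.ofReal_zero] at this
    exact tendsto_nhdsWithin_of_tendsto_nhds this
  have h7 : Tendsto (fun w : ℝ => ‖iteratedDeriv r F 1 / (r.factorial : ℂ) + w * G w‖) (𝓝[>] 0)
      (𝓝 (leadAbs F r)) := by
    have h8 : Tendsto (fun w : ℂ => iteratedDeriv r F 1 / (r.factorial : ℂ) + w * G w) (𝓝 0)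
        (𝓝 (iteratedDeriv r F 1 / (r.factorial : ℂ) + 0 * G 0)) :=
      (tendsto_id.mul hG.continuousAt.tendsto).const_add _
    have h9 := (h8.comp h6).norm
    have h10 : ‖iteratedDeriv r F 1 / (r.factorial : ℂ) + 0 * G 0‖ = leadAbs F r := by
      rw [zero_mul, add_zero, norm_div, Complex.norm_natCast]
      rfl
    rw [h10] at h9
    exact h9
  refine h7.congr' ?_
  filter_upwards [self_mem_nhdsWithin] with w hw
  have hw0 : (0 : ℝ) < w := hw
  rw [h5 w, norm_mul, norm_pow, Complex.norm_real, Real.norm_of_nonneg hw0.le]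
  field_simp

variable {a b : ℤ}

/-- `log ‖small 0‖` -/
noncomputable def kap (a b : ℤ) : ℝ :=
  ∑ p ∈ Finset.range 25, if GoodPrime a b p then lp a b p else 0

theorem ef_zero {p : ℕ} (hp : p.Prime) :
    ef a b p 0 = ((((pointCount a b p : ℝ) + 1) / p : ℝ) : ℂ) := by
  have hp0 : (p : ℂ) ≠ 0 := by exact_mod_cast hp.ne_zero
  rw [ef_eq hp.one_le, xp_zero]
  unfold fac tt Ap
  have h1 : ((dl p : ℝ) : ℂ) ^ 2 = 1 / p := by
    rw [← Complex.ofReal_pow, dl_sq hp.one_le]
    push_cast; rfl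
  rw [h1]
  push_cast
  field_simp
  ring

theorem log_small : Real.log ‖small a b 0‖ = kap a b := by
  unfold small kap
  rw [norm_prod, Real.log_prod]
  · refine Finset.sum_congr rfl fun p _ => ?_
    split_ifs with h
    · have hp0 : 0 < (p : ℝ) := by exact_mod_cast h.1.pos
      rw [ef_zero h.1, Complex.norm_real, Real.norm_of_nonneg (by positivity)]
      rfl
    · simp
  · intro p _
    split_ifs with h
    · have hp0 : 0 < (p : ℝ) := by exact_mod_cast h.1.pos
      rw [ef_zero h.1, Complex.norm_real, Real.norm_of_nonneg (by positivity)]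
      positivity
    · simp

theorem phi_limit {F : ℂ → ℂ} (hF : IsLSeries a b F) {r : ℕ} (hr : analyticOrderAt F 1 = r) :
    Tendsto (fun w : ℝ => ‖PhiF a b F w‖ / w ^ r) (𝓝[>] 0)
      (𝓝 (leadAbs F r * ‖small a b 0‖)) := by
  obtain ⟨_, h1⟩ := lead_limit hF.1 hr
  have h2 : Tendsto (fun w : ℝ => ‖small a b w‖) (𝓝[>] 0) (𝓝 ‖small a b 0‖) := by
    have h3 : Continuous fun w : ℝ => ‖small a b w‖ :=
      (small_differentiable.continuous.comp Complex.continuous_ofReal).norm
    have := h3.tendsto 0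
    rw [Complex.ofReal_zero] at this
    exact tendsto_nhdsWithin_of_tendsto_nhds this
  refine (h1.mul h2).congr fun w => ?_
  unfold PhiF
  rw [norm_mul]
  ring

theorem small_norm_pos : 0 < ‖small a b 0‖ := by
  have := small_ne_zero_real (a := a) (b := b) (w := 0) le_rfl
  rw [Complex.ofReal_zero] at this
  exact norm_pos_iff.mpr this

theorem exp_ge_25 {u : ℝ} (hu : 4 ≤ u) : 25 ≤ Real.exp u := by
  have e1 := Real.exp_one_gt_d9
  have e2 : Real.exp 4 ≤ Real.exp u := Real.exp_le_exp.mpr hu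
  have e3 : Real.exp 4 = (Real.exp 1 * Real.exp 1) * (Real.exp 1 * Real.exp 1) := by
    rw [← Real.exp_add, ← Real.exp_add]; norm_num
  have e4 : (5 : ℝ) ≤ Real.exp 1 * Real.exp 1 := by nlinarith
  nlinarith

/-- exact relation between `log P` and `a` -/
theorem log_bsd_eq {u : ℝ} (hu : 4 ≤ u) :
    Real.log (bsdProduct a b (Real.exp u)) = aak (SS a b) (Ap a b) 0 u + kap a b := by
  have h25 := exp_ge_25 hu
  set R := Finset.range (⌊Real.exp u⌋₊ + 1) with hR
  have hsub : Finset.range 25 ⊆ R := by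
    intro p hp
    rw [Finset.mem_range] at hp ⊢
    have : 25 ≤ ⌊Real.exp u⌋₊ := Nat.le_floor (by exact_mod_cast h25)
    omega
  have h1 : Real.log (bsdProduct a b (Real.exp u)) =
      ∑ p ∈ R, if GoodPrime a b p then lp a b p else 0 := by
    rw [log_bsdProduct]
    unfold rieszMean
    rw [← hR, Finset.sum_filter]
    refine Finset.sum_congr rfl fun p _ => ?_
    simp only [pow_zero, one_mul]
    rfl
  have h2 : kap a b = ∑ p ∈ R, if p < 25 then (if GoodPrime a b p then lp a b p else 0) else 0 := by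
    refine Eq.trans ?_ (Finset.sum_filter (s := R) (fun p => p < 25)
      (fun p => if GoodPrime a b p then lp a b p else 0))
    unfold kap
    refine Finset.sum_congr ?_ fun _ _ => rfl
    ext p
    rw [Finset.mem_filter, Finset.mem_range]
    exact ⟨fun h => ⟨hsub (Finset.mem_range.mpr h), h⟩, fun h => h.2⟩
  rw [h1, h2]
  unfold aak
  rw [← hR, ← Finset.sum_add_distrib]
  refine Finset.sum_congr rfl fun p _ => ?_
  unfold rt
  by_cases hg : GoodPrime a b p
  · by_cases h25 : 25 ≤ p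
    · have hS : p ∈ SS a b := ⟨hg, h25⟩
      rw [if_pos hg, if_pos hS, if_neg (by omega), cc_eq_lp (by omega)]
      simp
    · have hS : p ∉ SS a b := fun h => h25 h.2
      rw [if_pos hg, if_neg hS, if_pos (by omega)]
      simp
  · have hS : p ∉ SS a b := fun h => hg h.1
    rw [if_neg hg, if_neg hS]
    simp

theorem bsdStar_pos (x : ℝ) : 0 < bsdStar a b x := mul_pos (bsdProduct_pos x) (Real.exp_pos _)

/-- the correction in terms of `sc` -/
theorem corr_eq {u : ℝ} (hu : 8 ≤ u) :
    ∑ p ∈ (Finset.range (⌊Real.exp u⌋₊ + 1)).filter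
      (fun p => GoodPrime a b p ∧ √(Real.exp u) < p),
      (((p : ℝ) - pointCount a b p) ^ 2 - 2 * p) / (2 * (p : ℝ) ^ 2) =
      -sc (SS a b) (Ap a b) u := by
  have hsq : √(Real.exp u) = Real.exp (u / 2) := by
    rw [show u = u / 2 + u / 2 by ring, Real.exp_add, Real.sqrt_mul_self (Real.exp_pos _).le]
    congr 1; ring
  have h25 := exp_ge_25 (show 4 ≤ u / 2 by linarith)
  have hle : ⌊Real.exp (u / 2)⌋₊ ≤ ⌊Real.exp u⌋₊ :=
    Nat.floor_le_floor (Real.exp_le_exp.mpr (by linarith))
  rw [hsq]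
  have h1 : sc (SS a b) (Ap a b) u =
      ∑ p ∈ (Finset.range (⌊Real.exp u⌋₊ + 1)).filter (fun p : ℕ => Real.exp (u / 2) < (p : ℝ)),
        mc (SS a b) (Ap a b) p := by
    unfold sc stp
    rw [Finset.sum_filter, sub_eq_iff_eq_add]
    have h2 : ∑ n ∈ Finset.range (⌊Real.exp (u / 2)⌋₊ + 1), mc (SS a b) (Ap a b) n =
        ∑ p ∈ Finset.range (⌊Real.exp u⌋₊ + 1),
          if Real.exp (u / 2) < (p : ℝ) then 0 else mc (SS a b) (Ap a b) p := by
      have h3 : ∀ p : ℕ, (if Real.exp (u / 2) < (p : ℝ) then 0 else mc (SS a b) (Ap a b) p) =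
          if p < ⌊Real.exp (u / 2)⌋₊ + 1 then mc (SS a b) (Ap a b) p else 0 := by
        intro p
        have h4 : Real.exp (u / 2) < (p : ℝ) ↔ ¬ (p < ⌊Real.exp (u / 2)⌋₊ + 1) := by
          rw [← Nat.floor_lt (Real.exp_pos _).le]
          omega
        by_cases h5 : p < ⌊Real.exp (u / 2)⌋₊ + 1
        · rw [if_neg (by rw [h4]; simpa using h5), if_pos h5]
        · rw [if_pos (h4.mpr h5), if_neg h5]
      simp only [h3]
      rw [← Finset.sum_filter]
      refine Finset.sum_congr ?_ fun _ _ => rfl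
      ext p
      rw [Finset.mem_filter, Finset.mem_range, Finset.mem_range]
      omega
    rw [h2, ← Finset.sum_add_distrib]
    refine Finset.sum_congr rfl fun p _ => ?_
    split_ifs <;> simp
  rw [h1, ← Finset.sum_neg_distrib, Finset.sum_filter, Finset.sum_filter]
  refine Finset.sum_congr rfl fun p _ => ?_
  by_cases hp : Real.exp (u / 2) < (p : ℝ)
  · have hp25 : 25 ≤ p := by
      have : (25 : ℝ) < p := by linarith
      have : 25 < p := by exact_mod_cast this
      omega
    by_cases hg : GoodPrime a b p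
    · have hS : p ∈ SS a b := ⟨hg, hp25⟩
      rw [if_pos ⟨hg, hp⟩, if_pos hp]
      unfold mc
      rw [if_pos hS]
      unfold mm tt Ap
      rw [dl_sq (by omega)]
      have hp0 : (p : ℝ) ≠ 0 := by exact_mod_cast (show p ≠ 0 by omega)
      field_simp
      ring
    · have hS : p ∉ SS a b := fun h => hg h.1
      rw [if_neg (fun h => hg h.1), if_pos hp]
      unfold mc
      rw [if_neg hS, neg_zero]
  · rw [if_neg (fun h => hp h.2), if_neg hp]

theorem log_star_eq {u : ℝ} (hu : 8 ≤ u) (r : ℕ) :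
    Real.log (bsdStar a b (Real.exp u) / u ^ r) =
      ff (SS a b) (Ap a b) r u + r * (ell u - Real.log u) + kap a b := by
  have hu0 : 0 < u := by linarith
  rw [Real.log_div (bsdStar_pos _).ne' (pow_pos hu0 r).ne', Real.log_pow]
  unfold bsdStar
  rw [Real.log_mul (bsdProduct_pos _).ne' (Real.exp_pos _).ne', Real.log_exp, corr_eq hu,
    log_bsd_eq (by linarith)]
  unfold ff
  ring

theorem ell_sub_log : Tendsto (fun u => ell u - Real.log u) atTop (𝓝 0) := by
  have h1 : Tendsto (fun u : ℝ => Real.log (1 + Real.exp 1 / u)) atTop (𝓝 (Real.log (1 + 0))) := by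
    have h2 : Tendsto (fun u : ℝ => 1 + Real.exp 1 / u) atTop (𝓝 (1 + 0)) :=
      (tendsto_const_nhds.div_atTop tendsto_id).const_add 1
    exact h2.log (by norm_num)
  rw [add_zero, Real.log_one] at h1
  refine h1.congr' ?_
  filter_upwards [eventually_gt_atTop 0] with u hu
  have h3 := Real.exp_pos 1
  unfold ell
  rw [← Real.log_div (by positivity) hu.ne']
  congr 1
  field_simp

theorem target_eq {F : ℂ → ℂ} {r : ℕ} (h : 0 < leadAbs F r) :
    -Real.log (leadAbs F r * ‖small a b 0‖) + r * Real.eulerMascheroniConstant + kap a b =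
      Real.log (Real.exp (r * Real.eulerMascheroniConstant) / leadAbs F r) := by
  rw [Real.log_mul h.ne' small_norm_pos.ne', log_small, Real.log_div (Real.exp_pos _).ne' h.ne',
    Real.log_exp]
  ring

end Pool.Agent.W263.BSD
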