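import Pool.Agent.H21.L.R_seed8.W263.BSD.Lead6

/-! The leading coefficient and the Birch and Swinnerton-Dyer product: final theorems. -/

set_option autoImplicit false

namespace Pool.Agent.W263.BSD

open MeasureTheory Filter Topology Set Classical

variable {a b : ℤ}

theorem c_pos {F : ℂ → ℂ} {r : ℕ} (h : 0 < leadAbs F r) : 0 < leadAbs F r * ‖small a b 0‖ :=
  mul_pos h small_norm_pos

/-- `ff → C0` iff `P*(e^u)/u^r` converges to the constant -/
theorem star_tendsto_iff {F : ℂ → ℂ} {r : ℕ} (h : 0 < leadAbs F r) :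
    Tendsto (ff (SS a b) (Ap a b) r) atTop
      (𝓝 (-Real.log (leadAbs F r * ‖small a b 0‖) + r * Real.eulerMascheroniConstant)) →
    Tendsto (fun x : ℝ => bsdStar a b x / (Real.log x) ^ r) atTop
      (𝓝 (Real.exp (r * Real.eulerMascheroniConstant) / leadAbs F r)) := by
  intro h1
  have h2 := ((h1.add (ell_sub_log.const_mul (r : ℝ))).add_const (kap a b))
  rw [mul_zero, add_zero, target_eq h] at h2
  have h3 : Tendsto (fun u : ℝ => bsdStar a b (Real.exp u) / u ^ r) atTop
      (𝓝 (Real.exp (r * Real.eulerMascheroniConstant) / leadAbs F r)) := by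
    have h4 := h2.rexp
    rw [Real.exp_log (by positivity)] at h4
    refine h4.congr' ?_
    filter_upwards [eventually_ge_atTop 8] with u hu
    rw [← log_star_eq hu, Real.exp_log]
    exact div_pos (bsdStar_pos _) (pow_pos (by linarith) r)
  refine (h3.comp Real.tendsto_log_atTop).congr' ?_
  filter_upwards [eventually_gt_atTop 0] with x hx
  simp only [Function.comp_apply]
  rw [Real.exp_log hx]

/-- the multiplicative slow variation in terms of `u` -/
theorem slow_transfer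
    (h : ∀ ε : ℝ, 0 < ε → ∃ δ : ℝ, 0 < δ ∧ ∀ᶠ x : ℝ in atTop, ∀ y, x ≤ y → y ≤ x ^ (1 + δ) →
      bsdProduct a b y ≤ (1 + ε) * bsdProduct a b x) :
    ∀ ε > 0, ∃ δ > 0, ∃ u0 : ℝ, ∀ u v, u0 ≤ u → u ≤ v → v ≤ (1 + δ) * u →
      aak (SS a b) (Ap a b) 0 v ≤ aak (SS a b) (Ap a b) 0 u + ε := by
  intro ε hε
  obtain ⟨δ, hδ, h1⟩ := h ε hε
  obtain ⟨X, hX⟩ := eventually_atTop.mp h1
  refine ⟨δ, hδ, max 4 (Real.log (max X 1)), fun u v h2 h3 h4 => ?_⟩
  have hu4 : 4 ≤ u := (le_max_left _ _).trans h2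
  have h5 : X ≤ Real.exp u := by
    have e1 : Real.log (max X 1) ≤ u := (le_max_right _ _).trans h2
    have e2 : 0 < max X 1 := lt_of_lt_of_le one_pos (le_max_right _ _)
    rw [Real.log_le_iff_le_exp e2] at e1
    exact (le_max_left _ _).trans e1
  have h6 := hX (Real.exp u) h5 (Real.exp v) (Real.exp_le_exp.mpr h3) (by
    rw [← Real.exp_mul]
    exact Real.exp_le_exp.mpr (by linarith))
  have h7 := Real.log_le_log (bsdProduct_pos _) h6
  rw [Real.log_mul (by positivity) (bsdProduct_pos _).ne', log_bsd_eq hu4,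
    log_bsd_eq (hu4.trans h3)] at h7
  have h8 := Real.log_le_sub_one_of_pos (show 0 < 1 + ε by linarith)
  linarith

theorem slow_transfer_lower
    (h : ∀ ε : ℝ, 0 < ε → ∃ δ : ℝ, 0 < δ ∧ ∀ᶠ x : ℝ in atTop, ∀ y, x ≤ y → y ≤ x ^ (1 + δ) →
      bsdProduct a b x ≤ (1 + ε) * bsdProduct a b y) :
    ∀ ε > 0, ∃ δ > 0, ∃ u0 : ℝ, ∀ u v, u0 ≤ u → u ≤ v → v ≤ (1 + δ) * u →
      aak (SS a b) (Ap a b) 0 u - ε ≤ aak (SS a b) (Ap a b) 0 v := by
  intro ε hε
  obtain ⟨δ, hδ, h1⟩ := h ε hε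
  obtain ⟨X, hX⟩ := eventually_atTop.mp h1
  refine ⟨δ, hδ, max 4 (Real.log (max X 1)), fun u v h2 h3 h4 => ?_⟩
  have hu4 : 4 ≤ u := (le_max_left _ _).trans h2
  have h5 : X ≤ Real.exp u := by
    have e1 : Real.log (max X 1) ≤ u := (le_max_right _ _).trans h2
    have e2 : 0 < max X 1 := lt_of_lt_of_le one_pos (le_max_right _ _)
    rw [Real.log_le_iff_le_exp e2] at e1
    exact (le_max_left _ _).trans e1
  have h6 := hX (Real.exp u) h5 (Real.exp v) (Real.exp_le_exp.mpr h3) (by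
    rw [← Real.exp_mul]
    exact Real.exp_le_exp.mpr (by linarith))
  have h7 := Real.log_le_log (bsdProduct_pos _) h6
  rw [Real.log_mul (by positivity) (bsdProduct_pos _).ne', log_bsd_eq hu4,
    log_bsd_eq (hu4.trans h3)] at h7
  have h8 := Real.log_le_sub_one_of_pos (show 0 < 1 + ε by linarith)
  linarith

/-- an asymptotic formula implies two-sided slow variation -/
theorem slow_of_tendsto {r : ℕ} {C : ℝ} (hC : 0 < C)
    (h : Tendsto (fun x : ℝ => bsdStar a b x / (Real.log x) ^ r) atTop (𝓝 C)) {ε : ℝ}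
    (hε : 0 < ε) : ∃ δ : ℝ, 0 < δ ∧ ∀ᶠ x : ℝ in atTop, ∀ y, x ≤ y → y ≤ x ^ (1 + δ) →
      bsdProduct a b y ≤ (1 + ε) * bsdProduct a b x ∧
      bsdProduct a b x ≤ (1 + ε) * bsdProduct a b y := by
  have E := eData a b
  set η : ℝ := Real.log (1 + ε) / 5 with hη
  have hη0 : 0 < η := by
    have := Real.log_pos (show 1 < 1 + ε by linarith)
    positivity
  -- `ff` converges
  have h1 : Tendsto (fun u : ℝ => Real.log (bsdStar a b (Real.exp u) / u ^ r)) atTop
      (𝓝 (Real.log C)) := by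
    have h2 := (h.comp Real.tendsto_exp_atTop).log hC.ne'
    refine h2.congr fun u => ?_
    simp only [Function.comp_apply]
    rw [Real.log_exp]
  have h2 : Tendsto (ff (SS a b) (Ap a b) r) atTop (𝓝 (Real.log C - kap a b)) := by
    have h3 := ((h1.sub (ell_sub_log.const_mul (r : ℝ))).sub_const (kap a b))
    rw [mul_zero, sub_zero] at h3
    refine h3.congr' ?_
    filter_upwards [eventually_ge_atTop 8] with u hu
    rw [log_star_eq hu]
    ring
  obtain ⟨δ1, hδ1, u1, hs⟩ := E.sc_slow hη0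
  have hδ2 : 0 < η / (r + 1) := by positivity
  obtain ⟨U, hU⟩ := eventually_atTop.mp (Metric.tendsto_atTop.mp h2 η hη0 |> fun ⟨N, hN⟩ =>
    eventually_atTop.mpr ⟨N, hN⟩)
  refine ⟨min δ1 (η / (r + 1)), lt_min hδ1 hδ2, ?_⟩
  filter_upwards [eventually_ge_atTop (Real.exp (max 4 (max u1 U)))] with x hx y h4 h5
  have hx0 : 0 < x := lt_of_lt_of_le (Real.exp_pos _) hx
  have hy0 : 0 < y := by linarith
  set u := Real.log x with hu
  set v := Real.log y with hv
  have hu4 : max 4 (max u1 U) ≤ u := by rw [hu, Real.le_log_iff_exp_le hx0]; exact hx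
  have hu4' : 4 ≤ u := (le_max_left _ _).trans hu4
  have huv : u ≤ v := Real.log_le_log hx0 h4
  have hv2 : v ≤ (1 + min δ1 (η / (r + 1))) * u := by
    have := Real.log_le_log hy0 h5
    rwa [Real.log_rpow hx0] at this
  have hu0 : 0 < u := by linarith
  have m1 : min δ1 (η / (r + 1)) ≤ δ1 := min_le_left _ _
  have m2 : min δ1 (η / (r + 1)) ≤ η / (r + 1) := min_le_right _ _
  have e1 := hs u v (((le_max_left _ _).trans (le_max_right _ _)).trans hu4) huv
    (hv2.trans (mul_le_mul_of_nonneg_right (by linarith) hu0.le))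
  have e2 := hU u (((le_max_right _ _).trans (le_max_right _ _)).trans hu4)
  have e3 := hU v ((((le_max_right _ _).trans (le_max_right _ _)).trans hu4).trans huv)
  rw [Real.dist_eq] at e2 e3
  have e4 := ell_slow hδ2 hu0 huv (hv2.trans (mul_le_mul_of_nonneg_right (by linarith) hu0.le))
  have e5 : (r : ℝ) * ell v ≤ r * (ell u + η / (r + 1)) := mul_le_mul_of_nonneg_left e4 (by positivity)
  have e6 : (r : ℝ) * (η / (r + 1)) ≤ η := by
    rw [mul_div_assoc', div_le_iff₀ (by positivity)]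
    nlinarith
  have e7 : (r : ℝ) * ell u ≤ r * ell v := mul_le_mul_of_nonneg_left (ell_mono hu0.le huv) (by positivity)
  have e8 : |aak (SS a b) (Ap a b) 0 v - aak (SS a b) (Ap a b) 0 u| ≤ Real.log (1 + ε) := by
    have h6 : aak (SS a b) (Ap a b) 0 v - aak (SS a b) (Ap a b) 0 u =
        (ff (SS a b) (Ap a b) r v - (Real.log C - kap a b)) -
        (ff (SS a b) (Ap a b) r u - (Real.log C - kap a b)) +
        (sc (SS a b) (Ap a b) v - sc (SS a b) (Ap a b) u) + (r * ell v - r * ell u) := by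
      unfold ff; ring
    have h7 : Real.log (1 + ε) = 5 * η := by rw [hη]; ring
    rw [h6, h7]
    have a1 := abs_lt.mp e2
    have a2 := abs_lt.mp e3
    have a3 := abs_le.mp e1
    rw [abs_le]
    constructor <;> linarith
  have e9 := log_bsd_eq (a := a) (b := b) hu4'
  have e10 := log_bsd_eq (a := a) (b := b) (hu4'.trans huv)
  rw [hu, Real.exp_log hx0] at e9
  rw [hv, Real.exp_log hy0] at e10
  have e11 := abs_le.mp e8
  have h1ε : 0 < 1 + ε := by linarith
  constructor
  · rw [← Real.log_le_log_iff (bsdProduct_pos _) (mul_pos h1ε (bsdProduct_pos _)),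
      Real.log_mul h1ε.ne' (bsdProduct_pos _).ne', e9, e10]
    linarith
  · rw [← Real.log_le_log_iff (bsdProduct_pos _) (mul_pos h1ε (bsdProduct_pos _)),
      Real.log_mul h1ε.ne' (bsdProduct_pos _).ne', e9, e10]
    linarith

/-- convergence of the normalised product implies the exact order of `P` -/
theorem order_of_tendsto {r : ℕ} {C : ℝ} (hC : 0 < C)
    (h : Tendsto (fun x : ℝ => bsdStar a b x / (Real.log x) ^ r) atTop (𝓝 C)) :
    ∃ K : ℝ, ∀ᶠ x : ℝ in atTop, bsdProduct a b x ≤ K * (Real.log x) ^ r := by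
  obtain ⟨M, hM⟩ := (eData a b).sc_bounded
  refine ⟨(C + 1) * Real.exp M, ?_⟩
  filter_upwards [h.eventually (gt_mem_nhds (show C < C + 1 by linarith)),
    eventually_ge_atTop (Real.exp 8)] with x h1 h2
  have hx0 : 0 < x := lt_of_lt_of_le (Real.exp_pos _) h2
  have hl : 8 ≤ Real.log x := by rwa [Real.le_log_iff_exp_le hx0]
  have hl0 : 0 < Real.log x := by linarith
  rw [div_lt_iff₀ (pow_pos hl0 r)] at h1
  have h3 := corr_eq (a := a) (b := b) hl
  rw [Real.exp_log hx0] at h3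
  unfold bsdStar at h1
  rw [h3] at h1
  have h4 := (abs_le.mp (hM (Real.log x) hl0)).2
  have h5 : bsdProduct a b x = (bsdProduct a b x *
      Real.exp (-sc (SS a b) (Ap a b) (Real.log x))) *
      Real.exp (sc (SS a b) (Ap a b) (Real.log x)) := by
    rw [mul_assoc, ← Real.exp_add, neg_add_cancel, Real.exp_zero, mul_one]
  rw [h5]
  calc _ ≤ ((C + 1) * Real.log x ^ r) * Real.exp M :=
        mul_le_mul h1.le (Real.exp_le_exp.mpr h4) (Real.exp_pos _).le (by positivity)
    _ = _ := by ring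

/-- **One-sided slow variation and the leading coefficient.** -/
theorem lead_tfae {F : ℂ → ℂ} (hF : IsLSeries a b F) {r : ℕ} (hr : analyticOrderAt F 1 = r) :
    List.TFAE [
      Tendsto (fun x : ℝ => bsdStar a b x / (Real.log x) ^ r) atTop
        (𝓝 (Real.exp (r * Real.eulerMascheroniConstant) / leadAbs F r)),
      ∃ C : ℝ, 0 < C ∧ Tendsto (fun x : ℝ => bsdStar a b x / (Real.log x) ^ r) atTop (𝓝 C),
      ∀ ε : ℝ, 0 < ε → ∃ δ : ℝ, 0 < δ ∧ ∀ᶠ x : ℝ in atTop, ∀ y, x ≤ y → y ≤ x ^ (1 + δ) →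
        bsdProduct a b y ≤ (1 + ε) * bsdProduct a b x,
      (∀ s : ℝ, 1 < s → F s ≠ 0) ∧ ∀ ε : ℝ, 0 < ε → ∃ δ : ℝ, 0 < δ ∧ ∀ᶠ x : ℝ in atTop, ∀ y, x ≤ y →
        y ≤ x ^ (1 + δ) → bsdProduct a b x ≤ (1 + ε) * bsdProduct a b y] := by
  obtain ⟨hpos, _⟩ := lead_limit hF.1 hr
  tfae_have 1 → 2 := fun h => ⟨_, by positivity, h⟩
  tfae_have 2 → 3 := by
    rintro ⟨C, hC, h⟩ ε hε
    obtain ⟨δ, hδ, h1⟩ := slow_of_tendsto hC h hε
    exact ⟨δ, hδ, h1.mono fun x hx y h2 h3 => (hx y h2 h3).1⟩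
  tfae_have 2 → 4 := by
    rintro ⟨C, hC, h⟩
    refine ⟨?_, fun ε hε => ?_⟩
    · obtain ⟨K, hK⟩ := order_of_tendsto hC h
      exact fun s hs => no_zeros_of_order hF hK (by simpa using hs)
    · obtain ⟨δ, hδ, h1⟩ := slow_of_tendsto hC h hε
      exact ⟨δ, hδ, h1.mono fun x hx y h2 h3 => (hx y h2 h3).2⟩
  tfae_have 3 → 1 := fun h => star_tendsto_iff hpos
    ((eData a b).lead_upper (data 0 hF) (ordZero hF hr) (c_pos hpos) (phi_limit hF hr)
      (slow_transfer h))
  tfae_have 4 → 1 := fun h => star_tendsto_iff hpos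
    ((eData a b).lead_lower (data 0 hF) (ordZero hF hr) (c_pos hpos) (phi_ne h.1)
      (phi_limit hF hr) (slow_transfer_lower h.2))
  tfae_finish

theorem exp_bracket {T ε : ℝ} (hT : 0 < T) (hε : 0 < ε) : ∃ η : ℝ, 0 < η ∧
    T - ε ≤ T * Real.exp (-(2 * η)) ∧ T * Real.exp (2 * η) ≤ T + ε := by
  have h1 : Tendsto (fun η : ℝ => T * Real.exp (-(2 * η))) (𝓝[>] 0) (𝓝 T) := by
    have h2 : Continuous fun η : ℝ => T * Real.exp (-(2 * η)) := by fun_prop
    have := h2.tendsto 0
    simp only [mul_zero, neg_zero, Real.exp_zero, mul_one] at this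
    exact tendsto_nhdsWithin_of_tendsto_nhds this
  have h3 : Tendsto (fun η : ℝ => T * Real.exp (2 * η)) (𝓝[>] 0) (𝓝 T) := by
    have h2 : Continuous fun η : ℝ => T * Real.exp (2 * η) := by fun_prop
    have := h2.tendsto 0
    simp only [mul_zero, Real.exp_zero, mul_one] at this
    exact tendsto_nhdsWithin_of_tendsto_nhds this
  obtain ⟨η, h4, h5, h6⟩ := (((h1.eventually (lt_mem_nhds (show T - ε < T by linarith))).and
    ((h3.eventually (gt_mem_nhds (show T < T + ε by linarith))).and self_mem_nhdsWithin))).exists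
  exact ⟨η, h6, h4.le, h5.le⟩

/-- **Unconditional upper bracket.** -/
theorem bracket_up {F : ℂ → ℂ} (hF : IsLSeries a b F) {r : ℕ} (hr : analyticOrderAt F 1 = r)
    {ε : ℝ} (hε : 0 < ε) : ∃ᶠ x : ℝ in atTop,
      (Real.exp (r * Real.eulerMascheroniConstant) / leadAbs F r - ε) * (Real.log x) ^ r < bsdStar a b x := by
  obtain ⟨hpos, _⟩ := lead_limit hF.1 hr
  set T := Real.exp (r * Real.eulerMascheroniConstant) / leadAbs F r
  have hT0 : 0 < T := by positivity
  obtain ⟨η, hη, h1, _⟩ := exp_bracket hT0 hε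
  have h2 := (eData a b).bracket_upper (data 0 hF) (c_pos (a := a) (b := b) hpos)
    (phi_limit hF hr) hη
  have h3 : ∀ᶠ u : ℝ in atTop, -η < r * (ell u - Real.log u) := by
    have := (ell_sub_log.const_mul (r : ℝ))
    rw [mul_zero] at this
    exact this.eventually (lt_mem_nhds (by linarith))
  have h4 := (h2.and_eventually (h3.and (eventually_ge_atTop 8)))
  have h5 : ∃ᶠ u : ℝ in atTop, (T - ε) * u ^ r < bsdStar a b (Real.exp u) := by
    refine h4.mono fun u hu => ?_
    obtain ⟨h5, h6, h7⟩ := hu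
    have hu0 : 0 < u := by linarith
    have h8 := log_star_eq (a := a) (b := b) h7 r
    have h9 := target_eq (a := a) (b := b) hpos
    have h10 : Real.log T - 2 * η < Real.log (bsdStar a b (Real.exp u) / u ^ r) := by
      rw [h8]; linarith
    have h11 := Real.exp_lt_exp.mpr h10
    rw [Real.exp_log (div_pos (bsdStar_pos _) (pow_pos hu0 r)), Real.exp_sub, Real.exp_log hT0,
      lt_div_iff₀ (pow_pos hu0 r)] at h11
    refine lt_of_le_of_lt (mul_le_mul_of_nonneg_right ?_ (pow_pos hu0 r).le) h11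
    refine h1.trans (le_of_eq ?_)
    rw [Real.exp_neg]; rfl
  have h6 : Tendsto Real.exp atTop atTop := Real.tendsto_exp_atTop
  refine (h6.frequently (p := fun x => (T - ε) * (Real.log x) ^ r < bsdStar a b x) ?_)
  refine h5.mono fun u hu => ?_
  rw [Real.log_exp]
  exact hu

/-- **Lower bracket,** without real zeros to the right of `1`. -/
theorem bracket_down {F : ℂ → ℂ} (hF : IsLSeries a b F) {r : ℕ} (hr : analyticOrderAt F 1 = r)
    (hne : ∀ s : ℝ, 1 < s → F s ≠ 0) {ε : ℝ} (hε : 0 < ε) : ∃ᶠ x : ℝ in atTop,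
      bsdStar a b x < (Real.exp (r * Real.eulerMascheroniConstant) / leadAbs F r + ε) * (Real.log x) ^ r := by
  obtain ⟨hpos, _⟩ := lead_limit hF.1 hr
  set T := Real.exp (r * Real.eulerMascheroniConstant) / leadAbs F r
  have hT0 : 0 < T := by positivity
  obtain ⟨η, hη, _, h1⟩ := exp_bracket hT0 hε
  have h2 := (eData a b).bracket_lower (data 0 hF) (c_pos (a := a) (b := b) hpos)
    (phi_ne hne) (phi_limit hF hr) hη
  have h3 : ∀ᶠ u : ℝ in atTop, r * (ell u - Real.log u) < η := by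
    have := (ell_sub_log.const_mul (r : ℝ))
    rw [mul_zero] at this
    exact this.eventually (gt_mem_nhds (by linarith))
  have h4 := (h2.and_eventually (h3.and (eventually_ge_atTop 8)))
  have h5 : ∃ᶠ u : ℝ in atTop, bsdStar a b (Real.exp u) < (T + ε) * u ^ r := by
    refine h4.mono fun u hu => ?_
    obtain ⟨h5, h6, h7⟩ := hu
    have hu0 : 0 < u := by linarith
    have h8 := log_star_eq (a := a) (b := b) h7 r
    have h9 := target_eq (a := a) (b := b) hpos
    have h10 : Real.log (bsdStar a b (Real.exp u) / u ^ r) < Real.log T + 2 * η := by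
      rw [h8]; linarith
    have h11 := Real.exp_lt_exp.mpr h10
    rw [Real.exp_log (div_pos (bsdStar_pos _) (pow_pos hu0 r)), Real.exp_add, Real.exp_log hT0,
      div_lt_iff₀ (pow_pos hu0 r)] at h11
    exact lt_of_lt_of_le h11 (mul_le_mul_of_nonneg_right h1 (pow_pos hu0 r).le)
  have h6 : Tendsto Real.exp atTop atTop := Real.tendsto_exp_atTop
  refine (h6.frequently (p := fun x => bsdStar a b x < (T + ε) * (Real.log x) ^ r) ?_)
  refine h5.mono fun u hu => ?_
  rw [Real.log_exp]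
  exact hu

end Pool.Agent.W263.BSD
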